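import Pool.Agent.UCR.Stmt

/-!
# UCS: version of UCR with windows of several sizes; definitions

Class 1 of a unit (differences `1`, `4` in `ZMod 5`) uses the window function `W1`, class 2
(differences `2`, `3`) uses `W2`.
-/

set_option autoImplicit false

namespace Pool.Agent.UCS

/-- the window function of the class of the difference `d` -/
def wsel {V : Type} (W1 W2 : Sym2 V → ℕ) (d : ZMod 5) : Sym2 V → ℕ :=
  if d = 1 ∨ d = 4 then W1 else W2

/-- a placed unit, see UCR.Defs; now with two coarse window functions -/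
def IsUnit5 {V : Type} (E : Finset (Sym2 V)) (W1 W2 F : Sym2 V → ℕ) (X : ZMod 5 → V) : Prop :=
  Function.Injective X ∧ (∀ a b : ZMod 5, a ≠ b → s(X a, X b) ∈ E) ∧
    ∀ a b d : ZMod 5, d ≠ 0 →
      wsel W1 W2 d s(X a, X (a + d)) = wsel W1 W2 d s(X b, X (b + d)) ∧
      F s(X a, X (a + d)) ≤ F s(X b, X (b + d)) + 1

/-- the label of a unit: coarse window `W1` of class 1, coarse window `W2` of class 2 -/
def lab {V : Type} (W1 W2 : Sym2 V → ℕ) (X : ZMod 5 → V) : ℕ × ℕ :=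
  (W1 s(X 0, X 1), W2 s(X 0, X 2))

/-- More than `c n` edges of the copy `φ` of `H` have at least `c n` edges of the copy
within distance `n ^ (1 + ω)`. -/
def Compressed {n N : ℕ} (H : SimpleGraph (Fin n)) (G : SimpleGraph (Fin N))
    (f : Sym2 (Fin N) → ℕ) (φ : Fin n → Fin N) (ω c : ℝ) : Prop :=
  c * n < ({e ∈ H.edgeSet | c * n ≤ ({e' ∈ H.edgeSet |
    (UCR.dist G f (Sym2.map φ e) (Sym2.map φ e') : ℝ)
      ≤ (n : ℝ) ^ (1 + ω)}.ncard : ℝ)}.ncard : ℝ)

/-- More than `c n` edges of the copy `φ` of `H` have more than `n ^ (1 - w)` edges of the copy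
within distance `n ^ (1 + a)`. -/
def Dense {n N : ℕ} (H : SimpleGraph (Fin n)) (G : SimpleGraph (Fin N))
    (f : Sym2 (Fin N) → ℕ) (φ : Fin n → Fin N) (a w c : ℝ) : Prop :=
  c * n < ({e ∈ H.edgeSet | (n : ℝ) ^ (1 - w) < ({e' ∈ H.edgeSet |
    (UCR.dist G f (Sym2.map φ e) (Sym2.map φ e') : ℝ)
      ≤ (n : ℝ) ^ (1 + a)}.ncard : ℝ)}.ncard : ℝ)

end Pool.Agent.UCS
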