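import Pool.Agent.UCR.BlueCount
import Pool.Agent.UCS.Defs

/-!
# UCS BlueUnion: union bound over the data, with a free parameter `K0`

PROOF. Same as `Pool.Agent.UCR.blue_union` (`Pool/Agent/UCR/BlueUnion.lean`, helper91) with the
number `2 ^ k / (2 * (k + 1) ^ 2)` replaced by `K0`: the last but one condition is now
`K0 ≤ ∑ wt`. (For fixed `u`, `v`, `d1`, `d2`: `blue_count` with `K = K0`; `hnum` gives
`K0 ≥ 4 Q wmax x D` with the notation of that docstring.)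
-/

set_option autoImplicit false

namespace Pool.Agent.UCS

open Pool.Agent.UCR

open Classical in
theorem blue_union (k r Q μ ℓ : ℕ) (b K0 : ℝ) (σ : Equiv.Perm (Fin (2 ^ k))) (hr : 0 < r)
    (hQ : 0 < Q) (hℓ : 0 < ℓ)
    (hb : 4 * (Q : ℝ) * b ≤ K0)
    (hnum : 4 * (Q : ℝ) * (32 * μ + 16 * 2 ^ k / ℓ) *
      (Real.log (r * (2 ^ k + 1) ^ 2) + Real.log (4 * (k + 1) ^ 2)) ≤ K0) :
    4 * ((Finset.univ.filter (fun f : Fin r × Fin r → Fin Q =>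
      ∃ u ≤ k, ∃ v ≤ k, ℓ < 2 ^ (u + 1) ∧ 2 ^ u ≤ μ ∧ ℓ < 2 ^ (v + 1) ∧ 2 ^ v ≤ μ ∧
      ∃ (d1 : Fin (2 ^ k / 2 ^ u) → Fin r × Fin (2 ^ k + 1) × Fin (2 ^ k + 1))
        (d2 : Fin (2 ^ k / 2 ^ v) → Fin r × Fin (2 ^ k + 1) × Fin (2 ^ k + 1)),
        (∀ T, 2 ^ k * wt d1 d2 σ T ≤ 16 * 2 ^ (u + v) + 4 * 2 ^ k) ∧
        K0 ≤ ∑ T, (wt d1 d2 σ T : ℝ) ∧
        (∑ T ∈ Finset.univ.filter (fun T => (f T : ℕ) = 0), (wt d1 d2 σ T : ℝ)) ≤ b)).card : ℝ)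
      ≤ (Q : ℝ) ^ (r ^ 2) := by
  sorry

end Pool.Agent.UCS
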