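import Pool.Agent.UCS.Core

/-!
# UCS Cover: peeling, and the sets `R T`, two window functions

PROOF. Same as `Pool.Agent.UCR.peel`, `Pool.Agent.UCR.cover` (`Pool/Agent/UCR/Cover.lean`,
helper48), with `core` of this folder. The last property: `s(X a, X b) ∈ E`, and the third
condition of `IsUnit5` says that `W1 s(X a, X b) = W1 s(X 0, X 1)` if `b - a = 1, 4` and
`W2 s(X a, X b) = W2 s(X 0, X 2)` if `b - a = 2, 3`.
-/

set_option autoImplicit false

namespace Pool.Agent.UCS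

private lemma peel {V : Type} [DecidableEq V] (E : Finset (Sym2 V)) (W1 W2 F : Sym2 V → ℕ)
    (L lam : ℕ)
    (hL : ∀ g, (E.filter (fun e => F e = g)).card ≤ L)
    (hW1 : ∀ g, ((E.filter (fun e => F e = g)).image W1).card ≤ 2)
    (hW2 : ∀ g, ((E.filter (fun e => F e = g)).image W2).card ≤ 2)
    (hlam : 108 * L < lam ^ 3) :
    ∀ (n : ℕ) (U : Finset (ZMod 5 → V)), U.card ≤ n → (∀ X ∈ U, IsUnit5 E W1 W2 F X) →
    ∃ ρ : (ZMod 5 → V) → ZMod 5 × ZMod 5, (∀ X, (ρ X).1 ≠ (ρ X).2) ∧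
      ∀ (a b : ZMod 5) (x y : V),
        ((U.filter (fun X => ρ X = (a, b) ∧ X a = x ∧ X b = y)).image (lab W1 W2)).card
          ≤ lam := by
  intro n
  induction n with
  | zero =>
    intro U hc hU
    have h0 : U = ∅ := by simpa using hc
    subst h0
    exact ⟨fun _ => (0, 1), fun _ => (by decide : (0 : ZMod 5) ≠ 1), by simp⟩
  | succ n ih =>
    intro U hc hU
    rcases U.eq_empty_or_nonempty with rfl | hne
    · exact ⟨fun _ => (0, 1), fun _ => (by decide : (0 : ZMod 5) ≠ 1), by simp⟩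
    obtain ⟨X0, hX0, a0, b0, hab, hcard⟩ := core E W1 W2 F L lam hL hW1 hW2 hlam U hU hne
    have hsub : U.filter (fun X' => ¬ (X' a0 = X0 a0 ∧ X' b0 = X0 b0)) ⊆ U :=
      Finset.filter_subset _ _
    have hlt : (U.filter (fun X' => ¬ (X' a0 = X0 a0 ∧ X' b0 = X0 b0))).card < U.card := by
      refine Finset.card_lt_card ⟨hsub, fun h => ?_⟩
      have := h hX0
      rw [Finset.mem_filter] at this
      exact this.2 ⟨rfl, rfl⟩
    obtain ⟨ρ, h1, h2⟩ := ih (U.filter (fun X' => ¬ (X' a0 = X0 a0 ∧ X' b0 = X0 b0)))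
      (by omega) (fun X hX => hU X (hsub hX))
    refine ⟨fun X => if X a0 = X0 a0 ∧ X b0 = X0 b0 then (a0, b0) else ρ X, ?_, ?_⟩
    · intro X
      dsimp only
      split_ifs
      · exact hab
      · exact h1 X
    · intro a b x y
      by_cases hcase : (a, b) = (a0, b0) ∧ x = X0 a0 ∧ y = X0 b0
      · obtain ⟨hp, hx, hy⟩ := hcase
        obtain ⟨ha, hb⟩ := Prod.mk.inj hp
        subst ha
        subst hb
        refine le_trans (Finset.card_le_card (Finset.image_subset_image ?_)) hcard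
        intro X hX
        rw [Finset.mem_filter] at hX ⊢
        exact ⟨hX.1, hX.2.2.1.trans hx, hX.2.2.2.trans hy⟩
      · refine le_trans (Finset.card_le_card (Finset.image_subset_image ?_)) (h2 a b x y)
        intro X hX
        rw [Finset.mem_filter] at hX ⊢
        obtain ⟨hXU, hρ, hxa, hyb⟩ := hX
        dsimp only at hρ
        by_cases h : X a0 = X0 a0 ∧ X b0 = X0 b0
        · exfalso
          rw [if_pos h] at hρ
          apply hcase
          obtain ⟨ha, hb⟩ := Prod.mk.inj hρ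
          subst ha
          subst hb
          exact ⟨rfl, hxa.symm.trans h.1, hyb.symm.trans h.2⟩
        · rw [if_neg h] at hρ
          exact ⟨Finset.mem_filter.2 ⟨hXU, h⟩, hρ, hxa, hyb⟩

private lemma wsel_pos' {V : Type} {W1 W2 : Sym2 V → ℕ} {d : ZMod 5} (h : d = 1 ∨ d = 4) :
    wsel W1 W2 d = W1 := by
  unfold wsel
  rw [if_pos h]

private lemma wsel_neg' {V : Type} {W1 W2 : Sym2 V → ℕ} {d : ZMod 5} (h : ¬ (d = 1 ∨ d = 4)) :
    wsel W1 W2 d = W2 := by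
  unfold wsel
  rw [if_neg h]

private lemma key_W' {V : Type} {E : Finset (Sym2 V)} {W1 W2 F : Sym2 V → ℕ} {Z : ZMod 5 → V}
    (hZ : IsUnit5 E W1 W2 F Z) (d a : ZMod 5) (hd : d ≠ 0) :
    wsel W1 W2 d s(Z a, Z (a + d)) =
      if d = 1 ∨ d = 4 then W1 s(Z 0, Z 1) else W2 s(Z 0, Z 2) := by
  rw [(hZ.2.2 a 0 d hd).1]
  have h4 := (hZ.2.2 4 0 1 (by decide)).1
  have h3 := (hZ.2.2 3 0 2 (by decide)).1
  rw [wsel_pos' (by decide)] at h4
  rw [wsel_neg' (by decide)] at h3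
  have e4 : (4 : ZMod 5) + 1 = 0 := by decide
  have e3 : (3 : ZMod 5) + 2 = 0 := by decide
  have e1 : (0 : ZMod 5) + 1 = 1 := by decide
  have e2 : (0 : ZMod 5) + 2 = 2 := by decide
  rw [e4, e1, Sym2.eq_swap] at h4
  rw [e3, e2, Sym2.eq_swap] at h3
  have hc : ∀ c : ZMod 5, c ≠ 0 → c = 1 ∨ c = 2 ∨ c = 3 ∨ c = 4 := by decide
  have z : ∀ c : ZMod 5, 0 + c = c := by decide
  rw [z d]
  rcases hc d hd with h | h | h | h
  · subst h; rw [if_pos (by decide), wsel_pos' (by decide)]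
  · subst h; rw [if_neg (by decide), wsel_neg' (by decide)]
  · subst h; rw [if_neg (by decide), wsel_neg' (by decide)]; exact h3
  · subst h; rw [if_pos (by decide), wsel_pos' (by decide)]; exact h4

theorem cover {V : Type} [DecidableEq V] (E : Finset (Sym2 V)) (W1 W2 F : Sym2 V → ℕ) (L lam : ℕ)
    (hL : ∀ g, (E.filter (fun e => F e = g)).card ≤ L)
    (hW1 : ∀ g, ((E.filter (fun e => F e = g)).image W1).card ≤ 2)
    (hW2 : ∀ g, ((E.filter (fun e => F e = g)).image W2).card ≤ 2)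
    (hlam : 108 * L < lam ^ 3)
    (U : Finset (ZMod 5 → V)) (hU : ∀ X ∈ U, IsUnit5 E W1 W2 F X) :
    ∃ R : ℕ × ℕ → Finset (Sym2 V),
      (∀ X ∈ U, ∃ a b : ZMod 5, a ≠ b ∧ s(X a, X b) ∈ R (lab W1 W2 X)) ∧
      (∀ e : Sym2 V, ∃ S : Finset (ℕ × ℕ), S.card ≤ 40 * lam ∧ ∀ T, e ∈ R T → T ∈ S) ∧
      (∀ T, ∀ e ∈ R T, e ∈ E ∧ (W1 e = T.1 ∨ W2 e = T.2)) := by
  obtain ⟨ρ, hρ1, hρ2⟩ := peel E W1 W2 F L lam hL hW1 hW2 hlam U.card U le_rfl hU
  refine ⟨fun T => (U.filter (fun X => lab W1 W2 X = T)).image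
    (fun X => s(X (ρ X).1, X (ρ X).2)), ?_, ?_, ?_⟩
  · intro X hX
    exact ⟨(ρ X).1, (ρ X).2, hρ1 X, Finset.mem_image.2 ⟨X, Finset.mem_filter.2 ⟨hX, rfl⟩, rfl⟩⟩
  · intro e
    induction e using Sym2.ind with
    | _ x y =>
    refine ⟨((Finset.univ : Finset (ZMod 5 × ZMod 5)).filter (fun p => p.1 ≠ p.2)).biUnion
      (fun p => (U.filter (fun X => ρ X = (p.1, p.2) ∧ X p.1 = x ∧ X p.2 = y)).image (lab W1 W2) ∪
        (U.filter (fun X => ρ X = (p.1, p.2) ∧ X p.1 = y ∧ X p.2 = x)).image (lab W1 W2)),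
      ?_, ?_⟩
    · refine le_trans (Finset.card_biUnion_le_card_mul _ _ (lam + lam) ?_) ?_
      · intro p _
        exact le_trans (Finset.card_union_le _ _)
          (Nat.add_le_add (hρ2 p.1 p.2 x y) (hρ2 p.1 p.2 y x))
      · have h20 : ((Finset.univ : Finset (ZMod 5 × ZMod 5)).filter
            (fun p => p.1 ≠ p.2)).card = 20 := by decide
        rw [h20]
        omega
    · intro T hT
      obtain ⟨X, hX, he⟩ := Finset.mem_image.1 hT
      obtain ⟨hXU, hXT⟩ := Finset.mem_filter.1 hX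
      rw [Finset.mem_biUnion]
      refine ⟨ρ X, Finset.mem_filter.2 ⟨Finset.mem_univ _, hρ1 X⟩, ?_⟩
      rw [Finset.mem_union]
      rcases Sym2.eq_iff.1 he with ⟨h1, h2⟩ | ⟨h1, h2⟩
      · left
        exact Finset.mem_image.2 ⟨X, Finset.mem_filter.2 ⟨hXU, rfl, h1, h2⟩, hXT⟩
      · right
        exact Finset.mem_image.2 ⟨X, Finset.mem_filter.2 ⟨hXU, rfl, h1, h2⟩, hXT⟩
  · intro T e he
    obtain ⟨X, hX, rfl⟩ := Finset.mem_image.1 he
    obtain ⟨hXU, hXT⟩ := Finset.mem_filter.1 hX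
    have hu := hU X hXU
    refine ⟨hu.2.1 _ _ (hρ1 X), ?_⟩
    have hne : (ρ X).2 - (ρ X).1 ≠ 0 := sub_ne_zero.2 (Ne.symm (hρ1 X))
    have key := key_W' hu ((ρ X).2 - (ρ X).1) (ρ X).1 hne
    rw [add_sub_cancel] at key
    rw [← hXT]
    unfold lab
    by_cases h : (ρ X).2 - (ρ X).1 = 1 ∨ (ρ X).2 - (ρ X).1 = 4
    · left
      rw [if_pos h, wsel_pos' h] at key
      exact key
    · right
      rw [if_neg h, wsel_neg' h] at key
      exact key

end Pool.Agent.UCS
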