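import Pool.Agent.UCS.Defs

/-!
# UCS Data: windows of comparable size, several levels

`A1 i p` is the window of level `i` of piece `p` of phase 1, `A2 i q` that of piece `q` of phase 2
(monotone in `p`, `q`); the unit `p` has the pieces `p` and `σ p`.

PROOF. As `Pool.Agent.UCR.exists_data` (`Pool/Agent/UCR/Data.lean`, helper4), one more
classification. Call `p` good if for some level `i1 ≤ I` the fibre of `A1 i1` through `p` has size
between `ℓ` and `μ`, and for some `i2 ≤ I` the fibre of `A2 i2` through `σ p` too. By `h1`, `h2`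
(and since `σ` is a bijection) at least `2 ^ k / 2` points are good. Choose such `i1(p)`, `i2(p)` and
`u = Nat.log 2` of the first fibre size, `v` of the second, `u, v ≤ k`: classes
`(i1, i2, u, v)`, `(I + 1) ^ 2 (k + 1) ^ 2` in number. Some class has at least
`2 ^ k / (2 (I + 1) ^ 2 (k + 1) ^ 2)` points. For this `(i1, i2, u, v)` let `J1` be the set of all
windows `i` whose fibre under `A1 i1` has size in `[2 ^ u, 2 ^ (u + 1))`, etc., as there.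
-/

set_option autoImplicit false

namespace Pool.Agent.UCS

open Pool.Agent.UCR

private lemma interval {M r : ℕ} (A : Fin M → Fin r) (hA : Monotone A) (i : Fin r)
    (hne : (Finset.univ.filter (fun p => A p = i)).Nonempty) :
    ∃ l h : Fin (M + 1), (∀ p : Fin M, A p = i ↔ (l : ℕ) ≤ (p : ℕ) ∧ (p : ℕ) < (h : ℕ)) ∧
      (h : ℕ) - (l : ℕ) = (Finset.univ.filter (fun p => A p = i)).card := by
  obtain ⟨a, haS, hamin⟩ := Finset.exists_min_image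
    (Finset.univ.filter (fun p => A p = i)) (fun p => (p : ℕ)) hne
  obtain ⟨b, hbS, hbmax⟩ := Finset.exists_max_image
    (Finset.univ.filter (fun p => A p = i)) (fun p => (p : ℕ)) hne
  have ha : A a = i := (Finset.mem_filter.1 haS).2
  have hb : A b = i := (Finset.mem_filter.1 hbS).2
  have key : ∀ p : Fin M, A p = i ↔ (a : ℕ) ≤ (p : ℕ) ∧ (p : ℕ) < (b : ℕ) + 1 := by
    intro p
    constructor
    · intro hp
      have hm : p ∈ Finset.univ.filter (fun p => A p = i) :=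
        Finset.mem_filter.2 ⟨Finset.mem_univ _, hp⟩
      exact ⟨hamin p hm, Nat.lt_succ_of_le (hbmax p hm)⟩
    · rintro ⟨h1, h2⟩
      have h3 : A a ≤ A p := hA (by exact Fin.le_def.2 h1)
      have h4 : A p ≤ A b := hA (by exact Fin.le_def.2 (Nat.lt_succ_iff.1 h2))
      rw [ha] at h3
      rw [hb] at h4
      exact le_antisymm h4 h3
  refine ⟨⟨a, by omega⟩, ⟨(b : ℕ) + 1, by omega⟩, key, ?_⟩
  have hS : Finset.univ.filter (fun p => A p = i) = Finset.Icc a b := by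
    ext p
    rw [Finset.mem_filter, Finset.mem_Icc, Fin.le_def, Fin.le_def, key p]
    simp
  rw [hS, Fin.card_Icc]

private lemma enum {M r : ℕ} (A : Fin M → Fin r) (hA : Monotone A) (u : ℕ) (p₀ : Fin M)
    (h1 : 2 ^ u ≤ (Finset.univ.filter (fun p => A p = A p₀)).card)
    (h2 : (Finset.univ.filter (fun p => A p = A p₀)).card < 2 ^ (u + 1)) :
    ∃ d : Fin (M / 2 ^ u) → Fin r × Fin (M + 1) × Fin (M + 1),
      (∀ s, 2 ^ u ≤ (Finset.univ.filter (fun p => A p = (d s).1)).card ∧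
        (Finset.univ.filter (fun p => A p = (d s).1)).card < 2 ^ (u + 1) ∧
        (∀ p : Fin M, A p = (d s).1 ↔
          ((d s).2.1 : ℕ) ≤ (p : ℕ) ∧ (p : ℕ) < ((d s).2.2 : ℕ)) ∧
        ((d s).2.2 : ℕ) - ((d s).2.1 : ℕ) = (Finset.univ.filter (fun p => A p = (d s).1)).card) ∧
      ∀ i, 2 ^ u ≤ (Finset.univ.filter (fun p => A p = i)).card →
        (Finset.univ.filter (fun p => A p = i)).card < 2 ^ (u + 1) → ∃ s, (d s).1 = i := by
  classical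
  set J : Finset (Fin r) := Finset.univ.filter (fun i =>
    2 ^ u ≤ (Finset.univ.filter (fun p => A p = i)).card ∧
      (Finset.univ.filter (fun p => A p = i)).card < 2 ^ (u + 1)) with hJ
  have hJm : ∀ i, i ∈ J ↔ 2 ^ u ≤ (Finset.univ.filter (fun p => A p = i)).card ∧
      (Finset.univ.filter (fun p => A p = i)).card < 2 ^ (u + 1) := by
    intro i
    rw [hJ, Finset.mem_filter]
    simp
  have hcard : J.card ≤ M / 2 ^ u := by
    rw [Nat.le_div_iff_mul_le (by positivity)]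
    have e1 : J.card * 2 ^ u ≤ ∑ i ∈ J, (Finset.univ.filter (fun p => A p = i)).card := by
      rw [← smul_eq_mul]
      exact Finset.card_nsmul_le_sum _ _ _ (fun i hi => ((hJm i).1 hi).1)
    have e2 : ∑ i ∈ J, (Finset.univ.filter (fun p => A p = i)).card ≤
        ∑ i : Fin r, (Finset.univ.filter (fun p => A p = i)).card :=
      Finset.sum_le_sum_of_subset (Finset.subset_univ _)
    have e3 : (Finset.univ : Finset (Fin M)).card =
        ∑ i : Fin r, (Finset.univ.filter (fun p => A p = i)).card :=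
      Finset.card_eq_sum_card_fiberwise (fun x _ => Finset.mem_coe.2 (Finset.mem_univ (A x)))
    rw [Finset.card_univ, Fintype.card_fin] at e3
    omega
  have hpos : ∀ i ∈ J, (Finset.univ.filter (fun p => A p = i)).Nonempty := by
    intro i hi
    rw [← Finset.card_pos]
    have := ((hJm i).1 hi).1
    have h3 : 0 < 2 ^ u := by positivity
    omega
  choose! l h hlh using fun i (hi : i ∈ J) => interval A hA i (hpos i hi)
  have hp0 : A p₀ ∈ J := (hJm _).2 ⟨h1, h2⟩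
  let g : Fin (M / 2 ^ u) → J := fun s =>
    if hs : (s : ℕ) < J.card then J.equivFin.symm ⟨s, hs⟩ else ⟨A p₀, hp0⟩
  have hg : Function.Surjective g := by
    intro j
    refine ⟨⟨(J.equivFin j : ℕ), lt_of_lt_of_le (J.equivFin j).2 hcard⟩, ?_⟩
    simp [g]
  refine ⟨fun s => ((g s : Fin r), l (g s), h (g s)), ?_, ?_⟩
  · intro s
    have hm := (hJm _).1 (g s).2
    have hq := hlh (g s) (g s).2
    exact ⟨hm.1, hm.2, hq.1, hq.2⟩
  · intro i hi1 hi2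
    obtain ⟨s, hs⟩ := hg ⟨i, (hJm i).2 ⟨hi1, hi2⟩⟩
    exact ⟨s, by simp [hs]⟩

open Classical in
theorem exists_data (k I : ℕ) (σ : Equiv.Perm (Fin (2 ^ k))) (hσ : Mixing k σ) (r μ ℓ : ℕ)
    (A1 A2 : ℕ → Fin (2 ^ k) → Fin r) (hA1 : ∀ i, Monotone (A1 i)) (hA2 : ∀ i, Monotone (A2 i))
    (h1 : 4 * (Finset.univ.filter (fun p => ¬ ∃ i ≤ I,
      ℓ ≤ (Finset.univ.filter (fun p' => A1 i p' = A1 i p)).card ∧
      (Finset.univ.filter (fun p' => A1 i p' = A1 i p)).card ≤ μ)).card ≤ 2 ^ k)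
    (h2 : 4 * (Finset.univ.filter (fun p => ¬ ∃ i ≤ I,
      ℓ ≤ (Finset.univ.filter (fun p' => A2 i p' = A2 i p)).card ∧
      (Finset.univ.filter (fun p' => A2 i p' = A2 i p)).card ≤ μ)).card ≤ 2 ^ k) :
    ∃ i1 ≤ I, ∃ i2 ≤ I, ∃ u ≤ k, ∃ v ≤ k, ℓ < 2 ^ (u + 1) ∧ 2 ^ u ≤ μ ∧ ℓ < 2 ^ (v + 1) ∧
      2 ^ v ≤ μ ∧
      ∃ (d1 : Fin (2 ^ k / 2 ^ u) → Fin r × Fin (2 ^ k + 1) × Fin (2 ^ k + 1))
        (d2 : Fin (2 ^ k / 2 ^ v) → Fin r × Fin (2 ^ k + 1) × Fin (2 ^ k + 1)),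
        (∀ p i j, Cnt d1 d2 σ p i j → A1 i1 p = i ∧ A2 i2 (σ p) = j) ∧
        (∀ T, 2 ^ k * wt d1 d2 σ T ≤ 16 * 2 ^ (u + v) + 4 * 2 ^ k) ∧
        2 ^ k ≤ 2 * (I + 1) ^ 2 * (k + 1) ^ 2 *
          (Finset.univ.filter (fun p => ∃ i j, Cnt d1 d2 σ p i j)).card := by
  classical
  have hM : 0 < 2 ^ k := by positivity
  set g1 : ℕ → Fin (2 ^ k) → ℕ :=
    fun i p => (Finset.univ.filter (fun p' => A1 i p' = A1 i p)).card with hg1
  set g2 : ℕ → Fin (2 ^ k) → ℕ :=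
    fun i p => (Finset.univ.filter (fun p' => A2 i p' = A2 i p)).card with hg2
  have hperm : ∀ (P : Fin (2 ^ k) → Prop) [DecidablePred P],
      (Finset.univ.filter (fun p => P (σ p))).card = (Finset.univ.filter P).card := by
    intro P _
    refine Finset.card_bij (fun p _ => σ p) ?_ ?_ ?_
    · intro p hp
      rw [Finset.mem_filter] at hp ⊢
      exact ⟨Finset.mem_univ _, hp.2⟩
    · intro p _ q _ hpq
      exact σ.injective hpq
    · intro q hq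
      rw [Finset.mem_filter] at hq
      refine ⟨σ.symm q, ?_, by simp⟩
      rw [Finset.mem_filter]
      exact ⟨Finset.mem_univ _, by simpa using hq.2⟩
  set G : Finset (Fin (2 ^ k)) := Finset.univ.filter (fun p =>
    (∃ i ≤ I, ℓ ≤ g1 i p ∧ g1 i p ≤ μ) ∧ ∃ i ≤ I, ℓ ≤ g2 i (σ p) ∧ g2 i (σ p) ≤ μ) with hG
  have b1 : 4 * (Finset.univ.filter (fun p => ¬ ∃ i ≤ I, ℓ ≤ g1 i p ∧ g1 i p ≤ μ)).card
      ≤ 2 ^ k := by
    convert h1
  have b2 : 4 * (Finset.univ.filter (fun p => ¬ ∃ i ≤ I, ℓ ≤ g2 i (σ p) ∧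
      g2 i (σ p) ≤ μ)).card ≤ 2 ^ k := by
    rw [hperm (fun q => ¬ ∃ i ≤ I, ℓ ≤ g2 i q ∧ g2 i q ≤ μ)]
    convert h2
  have hcov : (Finset.univ : Finset (Fin (2 ^ k))) ⊆ G ∪
      (Finset.univ.filter (fun p => ¬ ∃ i ≤ I, ℓ ≤ g1 i p ∧ g1 i p ≤ μ) ∪
      Finset.univ.filter (fun p => ¬ ∃ i ≤ I, ℓ ≤ g2 i (σ p) ∧ g2 i (σ p) ≤ μ)) := by
    intro p _
    rw [hG, Finset.mem_union, Finset.mem_union, Finset.mem_filter, Finset.mem_filter,
      Finset.mem_filter]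
    by_cases c1 : ∃ i ≤ I, ℓ ≤ g1 i p ∧ g1 i p ≤ μ
    · by_cases c2 : ∃ i ≤ I, ℓ ≤ g2 i (σ p) ∧ g2 i (σ p) ≤ μ
      · exact Or.inl ⟨Finset.mem_univ _, c1, c2⟩
      · exact Or.inr (Or.inr ⟨Finset.mem_univ _, c2⟩)
    · exact Or.inr (Or.inl ⟨Finset.mem_univ _, c1⟩)
  have hGc : 2 ^ k ≤ 2 * G.card := by
    have c1 := Finset.card_le_card hcov
    rw [Finset.card_univ, Fintype.card_fin] at c1
    have c2 := Finset.card_union_le G
      (Finset.univ.filter (fun p => ¬ ∃ i ≤ I, ℓ ≤ g1 i p ∧ g1 i p ≤ μ) ∪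
      Finset.univ.filter (fun p => ¬ ∃ i ≤ I, ℓ ≤ g2 i (σ p) ∧ g2 i (σ p) ≤ μ))
    have c3 := Finset.card_union_le
      (Finset.univ.filter (fun p => ¬ ∃ i ≤ I, ℓ ≤ g1 i p ∧ g1 i p ≤ μ))
      (Finset.univ.filter (fun p => ¬ ∃ i ≤ I, ℓ ≤ g2 i (σ p) ∧ g2 i (σ p) ≤ μ))
    omega
  have hle : ∀ (B : Fin (2 ^ k) → Fin r) (p : Fin (2 ^ k)),
      (Finset.univ.filter (fun p' => B p' = B p)).card ≤ 2 ^ k := by
    intro B p
    refine le_trans (Finset.card_le_univ _) ?_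
    rw [Fintype.card_fin]
  have hex : ∀ p : Fin (2 ^ k), ∃ i : ℕ × ℕ, p ∈ G →
      (i.1 ≤ I ∧ ℓ ≤ g1 i.1 p ∧ g1 i.1 p ≤ μ) ∧ i.2 ≤ I ∧ ℓ ≤ g2 i.2 (σ p) ∧
        g2 i.2 (σ p) ≤ μ := by
    intro p
    by_cases hp : p ∈ G
    · obtain ⟨⟨i, hi, hi'⟩, ⟨j, hj, hj'⟩⟩ := (Finset.mem_filter.1 hp).2
      exact ⟨(i, j), fun _ => ⟨⟨hi, hi'⟩, hj, hj'⟩⟩
    · exact ⟨(0, 0), fun h => absurd h hp⟩
  choose lv hlv using hex
  set f1 : Fin (2 ^ k) → ℕ := fun p => g1 (lv p).1 p with hf1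
  set f2 : Fin (2 ^ k) → ℕ := fun p => g2 (lv p).2 (σ p) with hf2
  set cl : Fin (2 ^ k) → (ℕ × ℕ) × ℕ × ℕ :=
    fun p => (lv p, Nat.log 2 (f1 p), Nat.log 2 (f2 p)) with hcl
  set R : Finset ((ℕ × ℕ) × ℕ × ℕ) := (Finset.range (I + 1) ×ˢ Finset.range (I + 1)) ×ˢ
    (Finset.range (k + 1) ×ˢ Finset.range (k + 1)) with hR
  have hRc : R.card = (I + 1) ^ 2 * (k + 1) ^ 2 := by
    rw [hR, Finset.card_product, Finset.card_product, Finset.card_product, Finset.card_range,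
      Finset.card_range]
    ring
  have hmaps : ∀ p ∈ G, cl p ∈ R := by
    intro p hp
    have k1 : Nat.log 2 (f1 p) ≤ Nat.log 2 (2 ^ k) := Nat.log_mono_right (hle (A1 (lv p).1) p)
    have k2 : Nat.log 2 (f2 p) ≤ Nat.log 2 (2 ^ k) :=
      Nat.log_mono_right (hle (A2 (lv p).2) (σ p))
    rw [Nat.log_pow (by norm_num)] at k1 k2
    obtain ⟨⟨m1, _, _⟩, m2, _, _⟩ := hlv p hp
    refine Finset.mem_product.2 ⟨Finset.mem_product.2 ⟨?_, ?_⟩, Finset.mem_product.2 ⟨?_, ?_⟩⟩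
    · exact Finset.mem_range.2 (Nat.lt_succ_of_le m1)
    · exact Finset.mem_range.2 (Nat.lt_succ_of_le m2)
    · exact Finset.mem_range.2 (Nat.lt_succ_of_le k1)
    · exact Finset.mem_range.2 (Nat.lt_succ_of_le k2)
  obtain ⟨⟨⟨i1, i2⟩, u, v⟩, huv, hN⟩ : ∃ y ∈ R,
      G.card ≤ ((I + 1) ^ 2 * (k + 1) ^ 2) * (G.filter (fun p => cl p = y)).card := by
    by_contra hcon
    push Not at hcon
    have e3 : G.card = ∑ y ∈ R, (G.filter (fun p => cl p = y)).card :=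
      Finset.card_eq_sum_card_fiberwise (fun x hx => Finset.mem_coe.2 (hmaps x hx))
    have e4 : ((I + 1) ^ 2 * (k + 1) ^ 2) * G.card = ∑ y ∈ R,
        ((I + 1) ^ 2 * (k + 1) ^ 2) * (G.filter (fun p => cl p = y)).card := by
      rw [← Finset.mul_sum, ← e3]
    have e5 : ∑ y ∈ R, ((I + 1) ^ 2 * (k + 1) ^ 2) * (G.filter (fun p => cl p = y)).card <
        ∑ y ∈ R, G.card := by
      refine Finset.sum_lt_sum_of_nonempty ⟨((0, 0), 0, 0), ?_⟩ (fun y hy => hcon y hy)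
      simp [hR]
    rw [← e4, Finset.sum_const, hRc, smul_eq_mul] at e5
    exact lt_irrefl _ e5
  set H := G.filter (fun p => cl p = ((i1, i2), u, v)) with hH
  have hHpos : 0 < H.card := by
    rcases Nat.eq_zero_or_pos H.card with h0 | h0
    · rw [h0] at hN
      omega
    · exact h0
  obtain ⟨p₀, hp₀⟩ := Finset.card_pos.1 hHpos
  have hHm : ∀ p ∈ H, (ℓ ≤ g1 i1 p ∧ g1 i1 p ≤ μ ∧ ℓ ≤ g2 i2 (σ p) ∧ g2 i2 (σ p) ≤ μ) ∧
      (2 ^ u ≤ g1 i1 p ∧ g1 i1 p < 2 ^ (u + 1)) ∧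
      (2 ^ v ≤ g2 i2 (σ p) ∧ g2 i2 (σ p) < 2 ^ (v + 1)) := by
    intro p hp
    rw [hH, Finset.mem_filter] at hp
    obtain ⟨h3, h4⟩ := hp
    obtain ⟨⟨_, m1, m2⟩, _, m3, m4⟩ := hlv p h3
    have q1 : lv p = (i1, i2) := congrArg Prod.fst h4
    have q2 : Nat.log 2 (f1 p) = u := congrArg (fun z => z.2.1) h4
    have q3 : Nat.log 2 (f2 p) = v := congrArg (fun z => z.2.2) h4
    have q4 : (lv p).1 = i1 := congrArg Prod.fst q1
    have q5 : (lv p).2 = i2 := congrArg Prod.snd q1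
    have r1 : f1 p = g1 i1 p := by rw [hf1, ← q4]
    have r2 : f2 p = g2 i2 (σ p) := by rw [hf2, ← q5]
    rw [q4] at m1 m2
    rw [q5] at m3 m4
    rw [r1] at q2
    rw [r2] at q3
    have hne1 : g1 i1 p ≠ 0 := by
      have : 0 < g1 i1 p := Finset.card_pos.2 ⟨p, by simp⟩
      omega
    have hne2 : g2 i2 (σ p) ≠ 0 := by
      have : 0 < g2 i2 (σ p) := Finset.card_pos.2 ⟨σ p, by simp⟩
      omega
    refine ⟨⟨m1, m2, m3, m4⟩, ⟨?_, ?_⟩, ⟨?_, ?_⟩⟩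
    · rw [← q2]
      exact Nat.pow_log_le_self 2 hne1
    · rw [← q2]
      exact Nat.lt_pow_succ_log_self (by norm_num) _
    · rw [← q3]
      exact Nat.pow_log_le_self 2 hne2
    · rw [← q3]
      exact Nat.lt_pow_succ_log_self (by norm_num) _
  obtain ⟨⟨w1, w2, w3, w4⟩, ⟨w5, w6⟩, ⟨w7, w8⟩⟩ := hHm p₀ hp₀
  obtain ⟨huv1, huv2⟩ := Finset.mem_product.1 huv
  obtain ⟨hi1, hi2⟩ := Finset.mem_product.1 huv1
  obtain ⟨hu, hv⟩ := Finset.mem_product.1 huv2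
  have hi1' : i1 ≤ I := Nat.lt_succ_iff.1 (Finset.mem_range.1 hi1)
  have hi2' : i2 ≤ I := Nat.lt_succ_iff.1 (Finset.mem_range.1 hi2)
  have hu' : u ≤ k := Nat.lt_succ_iff.1 (Finset.mem_range.1 hu)
  have hv' : v ≤ k := Nat.lt_succ_iff.1 (Finset.mem_range.1 hv)
  obtain ⟨d1, hd1, hd1'⟩ := enum (A1 i1) (hA1 i1) u p₀ w5 w6
  obtain ⟨d2, hd2, hd2'⟩ := enum (A2 i2) (hA2 i2) v (σ p₀) w7 w8
  have hc1 : ∀ p i j, Cnt d1 d2 σ p i j → A1 i1 p = i ∧ A2 i2 (σ p) = j := by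
    rintro p i j ⟨⟨s, hs1, hs2, hs3⟩, ⟨t, ht1, ht2, ht3⟩⟩
    constructor
    · rw [← hs1]
      exact ((hd1 s).2.2.1 p).2 ⟨hs2, hs3⟩
    · rw [← ht1]
      exact ((hd2 t).2.2.1 (σ p)).2 ⟨ht2, ht3⟩
  refine ⟨i1, hi1', i2, hi2', u, hu', v, hv', by omega, by omega, by omega, by omega,
    d1, d2, hc1, ?_, ?_⟩
  · rintro ⟨i, j⟩
    rw [wt]
    rcases (Finset.univ.filter (fun p => Cnt d1 d2 σ p i j)).eq_empty_or_nonempty with h0 | hne
    · have : (Finset.univ.filter (fun p : Fin (2 ^ k) =>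
          Cnt d1 d2 σ p (i, j).1 (i, j).2)).card = 0 := by
        rw [Finset.card_eq_zero]
        convert h0
      rw [this]
      omega
    · obtain ⟨q, hq⟩ := hne
      rw [Finset.mem_filter] at hq
      obtain ⟨_, ⟨s, hs1, hs2, hs3⟩, ⟨t, ht1, ht2, ht3⟩⟩ := hq
      have hmix := hσ (d1 s).2.1 (d1 s).2.2 (d2 t).2.1 (d2 t).2.2
      have hsub : (Finset.univ.filter (fun p : Fin (2 ^ k) =>
          Cnt d1 d2 σ p (i, j).1 (i, j).2)).card ≤
          (Finset.univ.filter (fun p : Fin (2 ^ k) =>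
            ((d1 s).2.1 : ℕ) ≤ (p : ℕ) ∧ (p : ℕ) < ((d1 s).2.2 : ℕ) ∧
            ((d2 t).2.1 : ℕ) ≤ (σ p : ℕ) ∧ (σ p : ℕ) < ((d2 t).2.2 : ℕ))).card := by
        refine Finset.card_le_card ?_
        intro p hp
        rw [Finset.mem_filter] at hp ⊢
        obtain ⟨e1, e2⟩ := hc1 p i j hp.2
        have e3 := ((hd1 s).2.2.1 p).1 (by rw [hs1, e1])
        have e4 := ((hd2 t).2.2.1 (σ p)).1 (by rw [ht1, e2])
        exact ⟨Finset.mem_univ _, e3.1, e3.2, e4.1, e4.2⟩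
      have e5 := (hd1 s).2.2.2
      have e6 := (hd1 s).2.1
      have e7 := (hd2 t).2.2.2
      have e8 := (hd2 t).2.1
      rw [← e5] at e6
      rw [← e7] at e8
      have e9 : 4 * (((d1 s).2.2 : ℕ) - ((d1 s).2.1 : ℕ)) *
          (((d2 t).2.2 : ℕ) - ((d2 t).2.1 : ℕ)) ≤ 16 * 2 ^ (u + v) := by
        calc 4 * (((d1 s).2.2 : ℕ) - ((d1 s).2.1 : ℕ)) *
            (((d2 t).2.2 : ℕ) - ((d2 t).2.1 : ℕ)) ≤ 4 * 2 ^ (u + 1) * 2 ^ (v + 1) :=
              Nat.mul_le_mul (Nat.mul_le_mul_left _ e6.le) e8.le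
          _ = 16 * 2 ^ (u + v) := by ring
      calc _ ≤ 2 ^ k * (Finset.univ.filter (fun p : Fin (2 ^ k) =>
            ((d1 s).2.1 : ℕ) ≤ (p : ℕ) ∧ (p : ℕ) < ((d1 s).2.2 : ℕ) ∧
            ((d2 t).2.1 : ℕ) ≤ (σ p : ℕ) ∧ (σ p : ℕ) < ((d2 t).2.2 : ℕ))).card :=
              Nat.mul_le_mul_left _ hsub
        _ ≤ _ := hmix
        _ ≤ _ := by omega
  · have hHsub : H.card ≤ (Finset.univ.filter (fun p => ∃ i j, Cnt d1 d2 σ p i j)).card := by
      refine Finset.card_le_card ?_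
      intro p hp
      obtain ⟨_, ⟨q1, q2⟩, ⟨q3, q4⟩⟩ := hHm p hp
      obtain ⟨s, hs⟩ := hd1' (A1 i1 p) q1 q2
      obtain ⟨t, ht⟩ := hd2' (A2 i2 (σ p)) q3 q4
      rw [Finset.mem_filter]
      refine ⟨Finset.mem_univ _, A1 i1 p, A2 i2 (σ p), ⟨s, hs, ?_⟩, ⟨t, ht, ?_⟩⟩
      · exact ((hd1 s).2.2.1 p).1 hs.symm
      · exact ((hd2 t).2.2.1 (σ p)).1 ht.symm
    calc 2 ^ k ≤ 2 * G.card := hGc
      _ ≤ 2 * (((I + 1) ^ 2 * (k + 1) ^ 2) * H.card) := Nat.mul_le_mul_left _ hN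
      _ ≤ 2 * (((I + 1) ^ 2 * (k + 1) ^ 2) *
          (Finset.univ.filter (fun p => ∃ i j, Cnt d1 d2 σ p i j)).card) :=
            Nat.mul_le_mul_left _ (Nat.mul_le_mul_left _ hHsub)
      _ = _ := by ring

end Pool.Agent.UCS
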