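import Pool.Agent.UCR.Defs

/-!
# UCS NumE1: parameters, elementary part

PROOF. `k = Nat.log 2 (n / (5 + t))`, `(5 + t) 2 ^ k ≤ n < 2 (5 + t) 2 ^ k` (as in
`Pool/Agent/UCR/NumA.lean`, helper81, where several of these facts are proved). With
`c = 1 / (48 (5 + t) (S + 1))`: `c n ≤ n / (48 (5 + t)) < 2 ^ k / 24`,
`S ⌊c n⌋ ≤ S c n < 2 ^ k / 24`.
`q ≥ n ^ η / 2`, `⌊n ^ (3 α)⌋ ≥ n ^ (3 α) / 2`, and `3 α + η I = 1 + α + 11 / 2 d`. So the top level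
`Λ = 4 ⌊n ^ (3 α)⌋ q ^ I` satisfies
`2 n ^ (1 + α + 11 / 2 d) / 2 ^ I ≤ Λ ≤ 4 n ^ (1 + α + 11 / 2 d) ≤ n ^ (1 + α + 6 d)`.
`(⌊n ^ (2 + d / 2)⌋ / Λ + 1) ℓ ≤ (2 ^ I n ^ (1 - α - 5 d) + 1) 2 n ^ (α + 4 d)`, exponent
`1 - d < 1` (and `α + 4 d < 1`). `q q ℓ ≤ 2 n ^ (2 η + α + 4 d)`, against
`⌊n ^ (1 - α - 5 d)⌋`: `2 η + 2 α + 9 d ≤ 2 α + 19 / 2 d < 1`. `8 (I + 1) ≤ q` as `η > 0`.
-/

set_option autoImplicit false

namespace Pool.Agent.UCS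

open Filter

private theorem numE1_pow_lt (a b C : ℝ) (h : a < b) :
    ∀ᶠ n : ℕ in atTop, C * (n : ℝ) ^ a < (n : ℝ) ^ b := by
  have h1 : Tendsto (fun n : ℕ => (n : ℝ) ^ (b - a)) atTop atTop :=
    (tendsto_rpow_atTop (sub_pos.2 h)).comp tendsto_natCast_atTop_atTop
  filter_upwards [h1.eventually_gt_atTop C, eventually_gt_atTop 0] with n hn hn0
  have hp : (0 : ℝ) < n := by exact_mod_cast hn0
  have h2 : (n : ℝ) ^ b = (n : ℝ) ^ (b - a) * (n : ℝ) ^ a := by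
    rw [← Real.rpow_add hp]; congr 1; ring
  rw [h2]
  exact mul_lt_mul_of_pos_right hn (Real.rpow_pos_of_pos hp a)

private theorem half_le_floor {x : ℝ} (hx : 1 ≤ x) : x / 2 ≤ (⌊x⌋₊ : ℝ) := by
  have h1 : x < (⌊x⌋₊ : ℝ) + 1 := Nat.lt_floor_add_one x
  have h2 : 1 ≤ ⌊x⌋₊ := Nat.floor_pos.2 hx
  have h3 : (1 : ℝ) ≤ (⌊x⌋₊ : ℝ) := by exact_mod_cast h2
  linarith

private theorem ceil_le_two {x : ℝ} (hx : 1 ≤ x) : (⌈x⌉₊ : ℝ) ≤ 2 * x := by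
  have h1 : (⌈x⌉₊ : ℝ) < x + 1 := Nat.ceil_lt_add_one (by linarith)
  linarith

theorem num_levels (α d η : ℝ) (t I S : ℕ) (hα : 0 < α) (hd : 0 < d) (hw : α + 14 * d < 1 / 2)
    (hI : 0 < I) (hη : η = (1 - 2 * α + 11 / 2 * d) / I) (hη4 : η ≤ d / 4) :
    ∀ᶠ n : ℕ in atTop, ∀ k Γ q ℓ C0 : ℕ, k = Nat.log 2 (n / (5 + t)) →
      Γ = ⌊(n : ℝ) ^ (3 * α)⌋₊ → q = ⌊(n : ℝ) ^ η⌋₊ → ℓ = ⌈(n : ℝ) ^ (α + 4 * d)⌉₊ →
      C0 = ⌊1 / (48 * (5 + (t : ℝ)) * (S + 1)) * n⌋₊ →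
      0 < Γ ∧ 0 < q ∧ 0 < ℓ ∧ 0 < ⌊(n : ℝ) ^ (α + 2 * d)⌋₊ ∧ 0 < ⌊(n : ℝ) ^ (2 + d / 2)⌋₊ ∧
      108 * (4 * Γ) < ⌈(n : ℝ) ^ (α + d)⌉₊ ^ 3 ∧
      (5 + t) * 2 ^ k ≤ n ∧
      ((4 * Γ * q ^ I : ℕ) : ℝ) ≤ (n : ℝ) ^ (1 + α + 6 * d) ∧
      8 * (C0 + (⌊(n : ℝ) ^ (2 + d / 2)⌋₊ / (4 * Γ * q ^ I) + 1) * ℓ) ≤ 2 ^ k ∧
      8 * (I + 1) ≤ q ∧
      q * q * ℓ ≤ ⌊(n : ℝ) ^ (1 - α - 5 * d)⌋₊ ∧
      S * C0 < 2 ^ k ∧
      1 / (48 * (5 + (t : ℝ)) * (S + 1)) * n ≤ (2 : ℝ) ^ k := by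
  have hI0 : (0 : ℝ) < I := by exact_mod_cast hI
  have hηI : 3 * α + η * I = 1 + α + 11 / 2 * d := by
    rw [hη, div_mul_cancel₀ _ hI0.ne']
    ring
  have hη0 : 0 < η := by
    rw [hη]
    apply div_pos _ hI0
    linarith
  have e2 := numE1_pow_lt (3 * α) (3 * (α + d)) 432 (by linarith)
  have e4 := numE1_pow_lt (1 + α + 11 / 2 * d) (1 + α + 6 * d) 4 (by linarith)
  have e5 := numE1_pow_lt (1 - d) 1 (8 * 2 ^ I * (6 * (5 + (t : ℝ)))) (by linarith)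
  have e6 := numE1_pow_lt (α + 4 * d) 1 (16 * (6 * (5 + (t : ℝ)))) (by linarith)
  have e7 := numE1_pow_lt 0 η (8 * ((I : ℝ) + 1)) hη0
  have e8 := numE1_pow_lt (2 * η + α + 4 * d) (1 - α - 5 * d) 2 (by linarith)
  filter_upwards [e2, e4, e5, e6, e7, e8, eventually_ge_atTop (5 + t), eventually_ge_atTop 1] with
    n h2 h4 h5 h6 h7 h8 h9 h10
  intro k Γ q ℓ C0 hk hΓ hq hℓ hC0
  have hn1 : (1 : ℝ) ≤ n := by exact_mod_cast h10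
  have hn0 : (0 : ℝ) < n := by linarith
  have hge : ∀ a : ℝ, 0 ≤ a → (1 : ℝ) ≤ (n : ℝ) ^ a := fun a ha => Real.one_le_rpow hn1 ha
  have hfl : ∀ a : ℝ, 0 ≤ a → 0 < ⌊(n : ℝ) ^ a⌋₊ := fun a ha => Nat.floor_pos.2 (hge a ha)
  have hrp : ∀ a : ℝ, 0 < (n : ℝ) ^ a := fun a => Real.rpow_pos_of_pos hn0 a
  have h51 : 0 < 5 + t := by omega
  have hk1 : 2 ^ k ≤ n / (5 + t) := by
    rw [hk]
    exact Nat.pow_log_le_self 2 (Nat.ne_of_gt (Nat.div_pos h9 h51))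
  have hk2 : n / (5 + t) < 2 ^ (k + 1) := by
    rw [hk]
    exact Nat.lt_pow_succ_log_self (by norm_num) _
  have g7 : (5 + t) * 2 ^ k ≤ n := le_trans (Nat.mul_le_mul_left _ hk1) (Nat.mul_div_le n (5 + t))
  have g8 : n < 2 * ((5 + t) * 2 ^ k) := by
    have := (Nat.div_lt_iff_lt_mul h51).1 hk2
    calc n < 2 ^ (k + 1) * (5 + t) := this
      _ = 2 * ((5 + t) * 2 ^ k) := by rw [pow_succ]; ring
  have g8r : (n : ℝ) < 2 * ((5 + (t : ℝ)) * 2 ^ k) := by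
    have := (Nat.cast_lt (α := ℝ)).2 g8
    push_cast at this
    exact this
  have ht : (0 : ℝ) < 5 + (t : ℝ) := by positivity
  have hP : (0 : ℝ) < (2 : ℝ) ^ k := by positivity
  have hS0 : (0 : ℝ) ≤ (S : ℝ) := Nat.cast_nonneg S
  have hcS : (0 : ℝ) < 48 * (5 + (t : ℝ)) * (S + 1) := by positivity
  have hc0 : (0 : ℝ) ≤ 1 / (48 * (5 + (t : ℝ)) * (S + 1)) * n := by positivity
  have hfc : (C0 : ℝ) ≤ 1 / (48 * (5 + (t : ℝ)) * (S + 1)) * n := by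
    rw [hC0]
    exact Nat.floor_le hc0
  -- `(S + 1) c n < 2 ^ k / 24`
  have hcl : ((S : ℝ) + 1) * (1 / (48 * (5 + (t : ℝ)) * (S + 1)) * n) < 2 ^ k / 24 := by
    have h11 : ((S : ℝ) + 1) * (1 / (48 * (5 + (t : ℝ)) * (S + 1)) * n)
        = n / (48 * (5 + (t : ℝ))) := by
      field_simp
    rw [h11, div_lt_div_iff₀ (by positivity) (by norm_num)]
    nlinarith [g8r]
  have hcl1 : 1 / (48 * (5 + (t : ℝ)) * (S + 1)) * n < 2 ^ k / 24 := by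
    refine lt_of_le_of_lt ?_ hcl
    have : 1 * (1 / (48 * (5 + (t : ℝ)) * (S + 1)) * n) ≤
        ((S : ℝ) + 1) * (1 / (48 * (5 + (t : ℝ)) * (S + 1)) * n) :=
      mul_le_mul_of_nonneg_right (by linarith) hc0
    linarith
  have hclS : (S : ℝ) * (1 / (48 * (5 + (t : ℝ)) * (S + 1)) * n) < 2 ^ k / 24 := by
    refine lt_of_le_of_lt ?_ hcl
    exact mul_le_mul_of_nonneg_right (by linarith) hc0
  -- small powers against `2 ^ k`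
  rw [Real.rpow_one] at h5 h6
  have h6t : (0 : ℝ) < 6 * (5 + (t : ℝ)) := by positivity
  have k5 : 8 * 2 ^ I * (n : ℝ) ^ (1 - d) < 2 ^ k / 3 := by
    have : 8 * 2 ^ I * (n : ℝ) ^ (1 - d) * (6 * (5 + (t : ℝ))) <
        2 ^ k / 3 * (6 * (5 + (t : ℝ))) := by
      calc 8 * 2 ^ I * (n : ℝ) ^ (1 - d) * (6 * (5 + (t : ℝ)))
          = 8 * 2 ^ I * (6 * (5 + (t : ℝ))) * (n : ℝ) ^ (1 - d) := by ring
        _ < n := h5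
        _ < 2 * ((5 + (t : ℝ)) * 2 ^ k) := g8r
        _ = 2 ^ k / 3 * (6 * (5 + (t : ℝ))) := by ring
    exact lt_of_mul_lt_mul_right this h6t.le
  have k6 : 16 * (n : ℝ) ^ (α + 4 * d) < 2 ^ k / 3 := by
    have : 16 * (n : ℝ) ^ (α + 4 * d) * (6 * (5 + (t : ℝ))) <
        2 ^ k / 3 * (6 * (5 + (t : ℝ))) := by
      calc 16 * (n : ℝ) ^ (α + 4 * d) * (6 * (5 + (t : ℝ)))
          = 16 * (6 * (5 + (t : ℝ))) * (n : ℝ) ^ (α + 4 * d) := by ring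
        _ < n := h6
        _ < 2 * ((5 + (t : ℝ)) * 2 ^ k) := g8r
        _ = 2 ^ k / 3 * (6 * (5 + (t : ℝ))) := by ring
    exact lt_of_mul_lt_mul_right this h6t.le
  -- bounds of the floors
  have hΓu : (Γ : ℝ) ≤ (n : ℝ) ^ (3 * α) := by
    rw [hΓ]; exact Nat.floor_le (hrp _).le
  have hΓl : (n : ℝ) ^ (3 * α) / 2 ≤ (Γ : ℝ) := by
    rw [hΓ]; exact half_le_floor (hge _ (by linarith))
  have hqu : (q : ℝ) ≤ (n : ℝ) ^ η := by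
    rw [hq]; exact Nat.floor_le (hrp _).le
  have hql : (n : ℝ) ^ η / 2 ≤ (q : ℝ) := by
    rw [hq]; exact half_le_floor (hge _ hη0.le)
  have hℓu : (ℓ : ℝ) ≤ 2 * (n : ℝ) ^ (α + 4 * d) := by
    rw [hℓ]; exact ceil_le_two (hge _ (by linarith))
  have hqI : ((n : ℝ) ^ η) ^ I = (n : ℝ) ^ (η * I) := by
    rw [← Real.rpow_natCast, ← Real.rpow_mul hn0.le]
  have hE : (n : ℝ) ^ (3 * α) * ((n : ℝ) ^ η) ^ I = (n : ℝ) ^ (1 + α + 11 / 2 * d) := by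
    rw [hqI, ← Real.rpow_add hn0, hηI]
  have hΛu : (4 * (Γ : ℝ) * (q : ℝ) ^ I) ≤ 4 * (n : ℝ) ^ (1 + α + 11 / 2 * d) := by
    rw [← hE]
    have hp1 : (q : ℝ) ^ I ≤ ((n : ℝ) ^ η) ^ I := pow_le_pow_left₀ (Nat.cast_nonneg q) hqu I
    have hp2 : (Γ : ℝ) * (q : ℝ) ^ I ≤ (n : ℝ) ^ (3 * α) * ((n : ℝ) ^ η) ^ I :=
      mul_le_mul hΓu hp1 (by positivity) (hrp _).le
    linarith
  have hΛl : 2 * (n : ℝ) ^ (1 + α + 11 / 2 * d) / 2 ^ I ≤ 4 * (Γ : ℝ) * (q : ℝ) ^ I := by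
    rw [← hE]
    have hp1 : ((n : ℝ) ^ η / 2) ^ I ≤ (q : ℝ) ^ I :=
      pow_le_pow_left₀ (by have := hrp η; positivity) hql I
    have hp2 : (n : ℝ) ^ (3 * α) / 2 * ((n : ℝ) ^ η / 2) ^ I ≤ (Γ : ℝ) * (q : ℝ) ^ I :=
      mul_le_mul hΓl hp1 (by have := hrp η; positivity) (Nat.cast_nonneg Γ)
    have hp3 : 2 * ((n : ℝ) ^ (3 * α) * ((n : ℝ) ^ η) ^ I) / 2 ^ I =
        4 * ((n : ℝ) ^ (3 * α) / 2 * ((n : ℝ) ^ η / 2) ^ I) := by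
      rw [div_pow]
      field_simp
      ring
    rw [hp3]
    linarith
  have hΛ0 : (0 : ℝ) < 2 * (n : ℝ) ^ (1 + α + 11 / 2 * d) / 2 ^ I := by
    have := hrp (1 + α + 11 / 2 * d)
    positivity
  have hq8 : 8 * (I + 1) ≤ q := by
    rw [hq]
    apply Nat.le_floor
    push_cast
    rw [Real.rpow_zero, mul_one] at h7
    exact h7.le
  refine ⟨?_, ?_, ?_, hfl _ (by linarith), hfl _ (by linarith), ?_, g7, ?_, ?_, hq8, ?_, ?_, ?_⟩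
  · rw [hΓ]; exact hfl _ (by linarith)
  · rw [hq]; exact hfl _ hη0.le
  · rw [hℓ]; exact Nat.ceil_pos.2 (hrp _)
  · have hc : (n : ℝ) ^ (α + d) ≤ (⌈(n : ℝ) ^ (α + d)⌉₊ : ℝ) := Nat.le_ceil _
    have h6' : (n : ℝ) ^ (3 * (α + d)) = ((n : ℝ) ^ (α + d)) ^ 3 := by
      rw [← Real.rpow_natCast, ← Real.rpow_mul hn0.le]
      congr 1; push_cast; ring
    have h7' : ((n : ℝ) ^ (α + d)) ^ 3 ≤ (⌈(n : ℝ) ^ (α + d)⌉₊ : ℝ) ^ 3 :=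
      pow_le_pow_left₀ (hrp _).le hc 3
    have h8' : (108 * (4 * (Γ : ℝ))) < (⌈(n : ℝ) ^ (α + d)⌉₊ : ℝ) ^ 3 := by
      rw [h6'] at h2
      linarith
    exact_mod_cast h8'
  · push_cast
    linarith
  · have hr1 : ((⌊(n : ℝ) ^ (2 + d / 2)⌋₊ / (4 * Γ * q ^ I) : ℕ) : ℝ) ≤
        2 ^ I / 2 * (n : ℝ) ^ (1 - α - 5 * d) := by
      refine le_trans Nat.cast_div_le ?_
      push_cast
      have hf : (⌊(n : ℝ) ^ (2 + d / 2)⌋₊ : ℝ) ≤ (n : ℝ) ^ (2 + d / 2) := Nat.floor_le (hrp _).le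
      calc (⌊(n : ℝ) ^ (2 + d / 2)⌋₊ : ℝ) / (4 * (Γ : ℝ) * (q : ℝ) ^ I)
          ≤ (n : ℝ) ^ (2 + d / 2) / (2 * (n : ℝ) ^ (1 + α + 11 / 2 * d) / 2 ^ I) :=
            div_le_div₀ (hrp _).le hf hΛ0 hΛl
        _ = 2 ^ I / 2 * (n : ℝ) ^ (1 - α - 5 * d) := by
            have h12 : (n : ℝ) ^ (2 + d / 2) =
                (n : ℝ) ^ (1 - α - 5 * d) * (n : ℝ) ^ (1 + α + 11 / 2 * d) := by
              rw [← Real.rpow_add hn0]; congr 1; ring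
            have h13 := (hrp (1 + α + 11 / 2 * d)).ne'
            rw [h12]
            field_simp
    have hr2 : (((⌊(n : ℝ) ^ (2 + d / 2)⌋₊ / (4 * Γ * q ^ I) : ℕ) : ℝ) + 1) * (ℓ : ℝ) ≤
        (2 ^ I / 2 * (n : ℝ) ^ (1 - α - 5 * d) + 1) * (2 * (n : ℝ) ^ (α + 4 * d)) := by
      apply mul_le_mul (by linarith) hℓu (Nat.cast_nonneg ℓ)
      have := hrp (1 - α - 5 * d)
      positivity
    have hr3 : (2 ^ I / 2 * (n : ℝ) ^ (1 - α - 5 * d) + 1) * (2 * (n : ℝ) ^ (α + 4 * d)) =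
        2 ^ I * (n : ℝ) ^ (1 - d) + 2 * (n : ℝ) ^ (α + 4 * d) := by
      have h12 : (n : ℝ) ^ (1 - d) = (n : ℝ) ^ (1 - α - 5 * d) * (n : ℝ) ^ (α + 4 * d) := by
        rw [← Real.rpow_add hn0]; congr 1; ring
      rw [h12]
      ring
    rw [hr3] at hr2
    have hr4 : 8 * ((C0 : ℝ) +
        (((⌊(n : ℝ) ^ (2 + d / 2)⌋₊ / (4 * Γ * q ^ I) : ℕ) : ℝ) + 1) * (ℓ : ℝ)) ≤ 2 ^ k := by
      linarith
    exact_mod_cast hr4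
  · apply Nat.le_floor
    push_cast
    have hm1 : (q : ℝ) * q ≤ (n : ℝ) ^ η * (n : ℝ) ^ η :=
      mul_le_mul hqu hqu (Nat.cast_nonneg q) (hrp _).le
    have hm2 : (q : ℝ) * q * ℓ ≤ (n : ℝ) ^ η * (n : ℝ) ^ η * (2 * (n : ℝ) ^ (α + 4 * d)) := by
      apply mul_le_mul hm1 hℓu (Nat.cast_nonneg ℓ)
      have := hrp η
      positivity
    have hm3 : (n : ℝ) ^ η * (n : ℝ) ^ η * (2 * (n : ℝ) ^ (α + 4 * d)) =
        2 * (n : ℝ) ^ (2 * η + α + 4 * d) := by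
      have h12 : (n : ℝ) ^ (2 * η + α + 4 * d) =
          (n : ℝ) ^ η * (n : ℝ) ^ η * (n : ℝ) ^ (α + 4 * d) := by
        rw [← Real.rpow_add hn0, ← Real.rpow_add hn0]; congr 1; ring
      rw [h12]
      ring
    rw [hm3] at hm2
    linarith
  · have hs1 : (S : ℝ) * C0 < 2 ^ k := by
      have : (S : ℝ) * C0 ≤ (S : ℝ) * (1 / (48 * (5 + (t : ℝ)) * (S + 1)) * n) :=
        mul_le_mul_of_nonneg_left hfc hS0
      linarith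
    exact_mod_cast hs1
  · linarith

end Pool.Agent.UCS
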