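import Pool.Agent.UCR.Defs

/-!
# UCS NumE2: parameters, uniform in a short interval

PROOF. Let `α0 ∈ [α - d, α]`, `α0 ≥ 0`, `Γ' = ⌊n ^ (3 α0)⌋ ≥ n ^ (3 α0) / 2`, `Γ' ≥ 1` for
`n ≥ 1`. Then
`4 ⌊n ^ (3 α)⌋ / Γ' + 2 ≤ 8 n ^ (3 (α - α0)) + 2 ≤ 10 n ^ (3 d)`, `q ≤ n ^ (d / 4)`,
`μ ≤ n ^ (1 - α0 - 16 d) ≤ n ^ (1 - α - 15 d)`, so the product is at most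
`10 n ^ (1 - α - 47 / 4 d) ≤ n ^ (1 - α - 5 d) / 2 ≤ ⌊n ^ (1 - α - 5 d)⌋` for large `n`, uniformly
in `α0`.
-/

set_option autoImplicit false

namespace Pool.Agent.UCS

open Filter

theorem num_unif (α d η : ℝ) (hα : 0 < α) (hd : 0 < d) (hw : α + 14 * d < 1 / 2)
    (hη : 0 < η) (hη4 : η ≤ d / 4) :
    ∀ᶠ n : ℕ in atTop, ∀ α0 : ℝ, 0 ≤ α0 → α - d ≤ α0 → α0 ≤ α →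
      0 < ⌊(n : ℝ) ^ (3 * α0)⌋₊ ∧ ⌊(n : ℝ) ^ (3 * α0)⌋₊ ≤ ⌊(n : ℝ) ^ (3 * α)⌋₊ ∧
      (4 * ⌊(n : ℝ) ^ (3 * α)⌋₊ / ⌊(n : ℝ) ^ (3 * α0)⌋₊ + 2) * ⌊(n : ℝ) ^ η⌋₊ *
        ⌊(n : ℝ) ^ (1 - α0 - 16 * d)⌋₊ ≤ ⌊(n : ℝ) ^ (1 - α - 5 * d)⌋₊ ∧
      ⌊(n : ℝ) ^ (1 - α0 - 16 * d)⌋₊ ≤ ⌊(n : ℝ) ^ (1 - α - 5 * d)⌋₊ := by
  sorry

end Pool.Agent.UCS
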