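import Pool.Agent.UCR.Defs

/-!
# UCS NumE3: parameters, conditions for the blue union bound

PROOF. As `Pool.Agent.UCR.num_blue` (`Pool/Agent/UCR/NumC.lean`, helper25). `M = 2 ^ k`,
`M ≤ n < 2 (5 + t) M`, `k ≤ log_2 n`; `Q ≤ n ^ (α + 2 d)`, `μ ≤ n ^ (1 - α - 5 d)`,
`ℓ ≥ n ^ (α + 4 d)`, `m ≤ n ^ (2 + d / 2) ≤ n ^ 3`. `Q μ`: exponent `1 - 3 d`; `Q M / ℓ`: exponent
`1 - 2 d`; logarithms are `O(log n)`; right hand side `M / (2 (I + 1) ^ 2 (k + 1) ^ 2)`.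
-/

set_option autoImplicit false

namespace Pool.Agent.UCS

open Filter

theorem num_blue (α d : ℝ) (t I : ℕ) (hα : 0 < α) (hd : 0 < d) (hw : α + 14 * d < 1 / 2) :
    ∀ᶠ n : ℕ in atTop, ∀ k μ m ℓ Q : ℕ, k = Nat.log 2 (n / (5 + t)) →
      μ = ⌊(n : ℝ) ^ (1 - α - 5 * d)⌋₊ →
      m = ⌊(n : ℝ) ^ (2 + d / 2)⌋₊ → ℓ = ⌈(n : ℝ) ^ (α + 4 * d)⌉₊ →
      Q = ⌊(n : ℝ) ^ (α + 2 * d)⌋₊ →
      4 * (Q : ℝ) * (4 * 2 ^ k / ℓ + μ) ≤ 2 ^ k / (2 * (I + 1) ^ 2 * (k + 1) ^ 2) ∧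
      4 * (Q : ℝ) * (32 * μ + 16 * 2 ^ k / ℓ) *
        (Real.log (m * (2 ^ k + 1) ^ 2) + Real.log (4 * (k + 1) ^ 2))
          ≤ 2 ^ k / (2 * (I + 1) ^ 2 * (k + 1) ^ 2) := by
  sorry

end Pool.Agent.UCS
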