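import Pool.Agent.UCS.Multi
import Pool.Agent.UCS.Transfer
import Pool.Agent.UCS.NumE1
import Pool.Agent.UCS.NumE2
import Pool.Agent.UCS.NumE3
import Pool.Agent.UCR.Rev
import Pool.Agent.UCR.Design
import Pool.Agent.UCR.NumB2
import Pool.Agent.UCR.Mono

/-!
# UCS Final: the main theorem
-/

set_option autoImplicit false

namespace Pool.Agent.UCS

open Pool.Agent.UCR Filter

theorem Dense.mono {n N : ℕ} (hn : 1 ≤ n) {H : SimpleGraph (Fin n)} {G : SimpleGraph (Fin N)}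
    {f : Sym2 (Fin N) → ℕ} {φ : Fin n → Fin N} {a w w' c : ℝ} (hw : w ≤ w')
    (h : Dense H G f φ a w c) : Dense H G f φ a w' c := by
  unfold Dense at h ⊢
  refine lt_of_lt_of_le h ?_
  have hn1 : (1 : ℝ) ≤ n := by exact_mod_cast hn
  have : (n : ℝ) ^ (1 - w') ≤ (n : ℝ) ^ (1 - w) :=
    Real.rpow_le_rpow_of_exponent_le hn1 (by linarith)
  have hsub : {e ∈ H.edgeSet | (n : ℝ) ^ (1 - w) < ({e' ∈ H.edgeSet |
      (UCR.dist G f (Sym2.map φ e) (Sym2.map φ e') : ℝ) ≤ (n : ℝ) ^ (1 + a)}.ncard : ℝ)} ⊆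
      {e ∈ H.edgeSet | (n : ℝ) ^ (1 - w') < ({e' ∈ H.edgeSet |
      (UCR.dist G f (Sym2.map φ e) (Sym2.map φ e') : ℝ) ≤ (n : ℝ) ^ (1 + a)}.ncard : ℝ)} :=
    fun e he => ⟨he.1, lt_of_le_of_lt this he.2⟩
  exact_mod_cast Set.ncard_le_ncard hsub (Set.toFinite _)

theorem main_small (ω d : ℝ) (hd : 0 < d) (hω2 : ω ≤ 1 / 2) (hdω : 16 * d ≤ ω) :
    ∃ Δ : ℕ, ∃ c : ℝ, 0 < c ∧ ∃ ε : ℝ, 0 < ε ∧ ∃ n₀ : ℕ, ∀ n : ℕ, n₀ ≤ n →
      ∃ (H : SimpleGraph (Fin n)) (g : Sym2 (Fin n) → ℕ), Set.InjOn g H.edgeSet ∧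
        (∀ x : Fin n, (H.neighborSet x).ncard ≤ Δ) ∧
        ∀ (N : ℕ) (G : SimpleGraph (Fin N)) (f : Sym2 (Fin N) → ℕ), Function.Injective f →
          (G.edgeSet.ncard : ℝ) ≤ (n : ℝ) ^ (2 + ε) →
          ∃ col : Sym2 (Fin N) → Bool, ∀ φ : Fin n → Fin N, IsMonoCopy H g G f col φ →
            Compressed H G f φ ω c ∨
            ∀ a : ℝ, -1 ≤ a → a ≤ 3 * ω - 1 - 3 * (16 * d) →
              Dense H G f φ a ((1 + a) / 3 + 16 * d) c ∨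
              Gappy H g G f φ a ((1 + a) / 3 + 16 * d) := by
  obtain ⟨s, hsdef⟩ : ∃ s : ℕ, s = ⌈ω / d - 15⌉₊ := ⟨_, rfl⟩
  have h16 : 16 ≤ ω / d := by
    rw [le_div_iff₀ hd]
    exact hdω
  have hs0 : 0 < s := by
    rw [hsdef]
    exact Nat.ceil_pos.mpr (by linarith)
  obtain ⟨al, hal⟩ : ∃ al : Fin s → ℝ, al = fun j : Fin s => (((j : ℕ) : ℝ) + 1) * d := ⟨_, rfl⟩
  have hal0 : ∀ j, 0 < al j := fun j => by
    rw [hal]
    show 0 < (((j : ℕ) : ℝ) + 1) * d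
    positivity
  have halw : ∀ j, al j + 14 * d < ω := fun j => by
    have h1 : ((j : ℕ) : ℝ) < ω / d - 15 := Nat.lt_ceil.mp (lt_of_lt_of_eq j.isLt hsdef)
    have h2 : ((j : ℕ) : ℝ) * d < ω - 15 * d := by
      calc ((j : ℕ) : ℝ) * d < (ω / d - 15) * d := by gcongr
        _ = ω - 15 * d := by field_simp
    rw [hal]
    show (((j : ℕ) : ℝ) + 1) * d + 14 * d < ω
    linarith
  have halw2 : ∀ j, al j + 14 * d < 1 / 2 := fun j => lt_of_lt_of_le (halw j) hω2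
  obtain ⟨I, hI⟩ : ∃ I : ℕ, I = ⌈4 * (1 + 6 * d) / d⌉₊ := ⟨_, rfl⟩
  have hI1 : 4 * (1 + 6 * d) / d ≤ I := by rw [hI]; exact Nat.le_ceil _
  have hI0' : (0 : ℝ) < I := lt_of_lt_of_le (by positivity) hI1
  have hI0 : 0 < I := by exact_mod_cast hI0'
  obtain ⟨eta, heta⟩ : ∃ eta : Fin s → ℝ, eta = fun j => (1 - 2 * al j + 11 / 2 * d) / I :=
    ⟨_, rfl⟩
  have heta' : ∀ j, eta j = (1 - 2 * al j + 11 / 2 * d) / I := fun j => by rw [heta]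
  have heta0 : ∀ j, 0 < eta j := fun j => by
    rw [heta']
    have := halw2 j
    exact div_pos (by linarith) hI0'
  have heta4 : ∀ j, eta j ≤ d / 4 := fun j => by
    rw [heta', div_le_iff₀ hI0']
    have h1 := hal0 j
    have h2 : d / 4 * (4 * (1 + 6 * d) / d) ≤ d / 4 * I := by gcongr
    have h3 : d / 4 * (4 * (1 + 6 * d) / d) = 1 + 6 * d := by field_simp
    linarith
  obtain ⟨t, h, ht, hhs, hred⟩ := num_red' (s * (I + 1) ^ 2) d (by positivity) hd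
  obtain ⟨ce, hce, hce1, hce2⟩ := exists_ce t
  have hlev := eventually_all.mpr fun j : Fin s =>
    num_levels (al j) d (eta j) t I (s * (I + 1)) (hal0 j) hd (halw2 j) hI0 (heta' j) (heta4 j)
  have hunif := eventually_all.mpr fun j : Fin s =>
    num_unif (al j) d (eta j) (hal0 j) hd (halw2 j) (heta0 j) (heta4 j)
  have hblu := eventually_all.mpr fun j : Fin s => num_blue (al j) d t I (hal0 j) hd (halw2 j)
  have hrd := eventually_all.mpr fun j : Fin s => hred (al j) (hal0 j)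
  obtain ⟨n₀, hn₀⟩ := eventually_atTop.mp
    ((eventually_ge_atTop 1).and (hrd.and (hlev.and (hblu.and hunif))))
  refine ⟨t, 1 / (48 * (5 + (t : ℝ)) * ((s * (I + 1) : ℕ) + 1)), by positivity, d / 2,
    by positivity, n₀, fun n hn => ?_⟩
  obtain ⟨hn1, hr, hle, hb, hun⟩ := hn₀ n hn
  have hnR : (1 : ℝ) ≤ n := by exact_mod_cast hn1
  have hle' := fun j => hle j _ _ _ _ _ rfl rfl rfl rfl rfl
  have hb' := fun j => hb j _ _ _ _ _ rfl rfl rfl rfl rfl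
  obtain ⟨σ, hσ⟩ := exists_mixing (Nat.log 2 (n / (5 + t)))
  obtain ⟨_, _, _, _, hm0, _, h5t, _, _, _, _, hSC, hcM⟩ := hle' ⟨0, hs0⟩
  obtain ⟨H, g, u, v, hds⟩ := exists_design (Nat.log 2 (n / (5 + t))) t (t * (t - 1) / 2) n ht
    h5t σ ce hce hce1 hce2
  refine ⟨H, g, hds.ginj, hds.deg, fun N G f hf hG => ?_⟩
  have hcard : (edges G).card ≤ ⌊(n : ℝ) ^ (2 + d / 2)⌋₊ := by
    apply Nat.le_floor
    have := Set.ncard_eq_toFinset_card G.edgeSet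
    unfold edges
    rw [← this]
    exact hG
  have hmm : ⌊(n : ℝ) ^ (2 + d / 2)⌋₊ ≤ ⌊(n : ℝ) ^ (2 + d)⌋₊ :=
    Nat.floor_le_floor (Real.rpow_le_rpow_of_exponent_le hnR (by linarith))
  obtain ⟨col, hcol⟩ := multi (edges G) (rank G f) (rank_injOn G f hf)
    ⌊(n : ℝ) ^ (2 + d / 2)⌋₊ hcard hm0
    (fun e he => lt_of_lt_of_le (rank_lt_card G f e he) hcard) (Nat.log 2 (n / (5 + t))) t _ h
    ⌊1 / (48 * (5 + (t : ℝ)) * ((s * (I + 1) : ℕ) + 1)) * n⌋₊ s I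
    (fun j => ⌊(n : ℝ) ^ (3 * al j)⌋₊)
    (fun j => ⌈(n : ℝ) ^ (al j + d)⌉₊) (fun j => ⌊(n : ℝ) ^ (al j + 2 * d)⌋₊)
    (fun j => ⌊(n : ℝ) ^ eta j⌋₊) (fun j => ⌊(n : ℝ) ^ (1 - al j - 5 * d)⌋₊)
    (fun j => ⌈(n : ℝ) ^ (al j + 4 * d)⌉₊) σ hσ ce hce hce2 ht hs0 hhs
    (fun j => (hle' j).1) (fun j => (hle' j).2.1) (fun j => (hle' j).2.2.2.2.2.1)
    (fun j => (hle' j).2.2.2.1) (fun j => (hle' j).2.2.1)
    (fun j => le_trans (by gcongr) (hr j))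
    (fun j => (hb' j).1) (fun j => (hb' j).2) (fun j => (hle' j).2.2.2.2.2.2.2.2.2.1)
    (fun j => (hle' j).2.2.2.2.2.2.2.2.2.2.1) (fun j => (hle' j).2.2.2.2.2.2.2.2.1) hSC
  refine ⟨col, fun φ hφ => ?_⟩
  by_contra hcon
  push Not at hcon
  obtain ⟨hn0', a, ha1, ha2, hn1', hn2'⟩ := hcon
  obtain ⟨α0, hα0⟩ : ∃ α0 : ℝ, α0 = (1 + a) / 3 := ⟨_, rfl⟩
  have hα00 : 0 ≤ α0 := by rw [hα0]; linarith
  have hα0ω : α0 ≤ ω - 16 * d := by rw [hα0]; linarith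
  have hx0 : 0 ≤ α0 / d := div_nonneg hα00 hd.le
  have hxd : α0 / d * d = α0 := by field_simp
  have hx1 : α0 / d ≤ ω / d - 16 := by
    rw [div_le_iff₀ hd]
    have : (ω / d - 16) * d = ω - 16 * d := by field_simp
    rw [this]
    exact hα0ω
  have hj1 : (⌊α0 / d⌋₊ : ℝ) ≤ α0 / d := Nat.floor_le hx0
  have hj2 : α0 / d < ⌊α0 / d⌋₊ + 1 := Nat.lt_floor_add_one _
  have hjs : ⌊α0 / d⌋₊ < s := by
    rw [hsdef]
    exact Nat.lt_ceil.mpr (by linarith)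
  obtain ⟨j, hj⟩ : ∃ j : Fin s, j = ⟨⌊α0 / d⌋₊, hjs⟩ := ⟨_, rfl⟩
  have hjv : ((j : ℕ) : ℝ) = (⌊α0 / d⌋₊ : ℝ) := by rw [hj]
  have ha_le : α0 ≤ al j := by
    rw [hal]
    show α0 ≤ (((j : ℕ) : ℝ) + 1) * d
    rw [hjv, ← hxd]
    gcongr
    rw [hxd]
    exact hj2.le
  have ha_ge : al j - d ≤ α0 := by
    rw [hal]
    show (((j : ℕ) : ℝ) + 1) * d - d ≤ α0
    rw [hjv]
    have : (⌊α0 / d⌋₊ : ℝ) * d ≤ α0 / d * d := by gcongr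
    linarith
  obtain ⟨u1, u2, u3, u4⟩ := hun j α0 hα00 ha_ge ha_le
  obtain ⟨hφ1, hφ2, hφ3, b, hφ4⟩ := hφ
  have e1 : 1 + a = 3 * α0 := by rw [hα0]; ring
  have e2 : (1 : ℝ) - ((1 + a) / 3 + 16 * d) = 1 - α0 - 16 * d := by rw [hα0]; ring
  obtain ⟨R, hR, hR1, hR2, hR3⟩ := transfer σ ce hce1 H g u v hds G f hf φ hφ1 hφ2 hφ3
    a ((1 + a) / 3 + 16 * d) ω (1 / (48 * (5 + (t : ℝ)) * ((s * (I + 1) : ℕ) + 1)))
    ⌊(n : ℝ) ^ (3 * α0)⌋₊ ⌊(n : ℝ) ^ (1 - α0 - 16 * d)⌋₊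
    ⌊1 / (48 * (5 + (t : ℝ)) * ((s * (I + 1) : ℕ) + 1)) * n⌋₊
    (by rw [e1]) u1 (by rw [e2]) rfl hn0' hn1' hn2'
  refine hcol _ _ R hR ⟨b, fun p x y hxy => hφ4 _ (hds.ue p x y hxy),
    fun p x y hxy => hφ4 _ (hds.ve p x y hxy)⟩ (fun j' i hi => ?_) j ⌊(n : ℝ) ^ (3 * α0)⌋₊
    ⌊(n : ℝ) ^ (1 - α0 - 16 * d)⌋₊ u1 u2 u3 u4 hR1 hR2
  have hΓ0 := (hle' j').1
  have hq0 := (hle' j').2.1
  have htop := (hle' j').2.2.2.2.2.2.2.1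
  refine hR3 _ _ (Nat.mul_pos (by omega) (pow_pos hq0 i)) ?_ (by exact_mod_cast hcM)
  refine le_trans ?_ (htop.trans (Real.rpow_le_rpow_of_exponent_le hnR (by
    have := halw j'
    linarith)))
  exact_mod_cast Nat.mul_le_mul_left _ (Nat.pow_le_pow_right hq0 hi)

theorem main (ω δ : ℝ) (hω : 0 < ω) (hω2 : ω ≤ 1 / 2) (hδ : 0 < δ) :
    ∃ Δ : ℕ, ∃ c : ℝ, 0 < c ∧ ∃ ε : ℝ, 0 < ε ∧ ∃ n₀ : ℕ, ∀ n : ℕ, n₀ ≤ n →
      ∃ (H : SimpleGraph (Fin n)) (g : Sym2 (Fin n) → ℕ), Set.InjOn g H.edgeSet ∧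
        (∀ x : Fin n, (H.neighborSet x).ncard ≤ Δ) ∧
        ∀ (N : ℕ) (G : SimpleGraph (Fin N)) (f : Sym2 (Fin N) → ℕ), Function.Injective f →
          (G.edgeSet.ncard : ℝ) ≤ (n : ℝ) ^ (2 + ε) →
          ∃ col : Sym2 (Fin N) → Bool, ∀ φ : Fin n → Fin N, IsMonoCopy H g G f col φ →
            Compressed H G f φ ω c ∨
            ∀ a : ℝ, -1 ≤ a → a ≤ 3 * ω - 1 - 3 * δ →
              Dense H G f φ a ((1 + a) / 3 + δ) c ∨ Gappy H g G f φ a ((1 + a) / 3 + δ) := by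
  obtain ⟨d, hd⟩ : ∃ d : ℝ, d = min δ ω / 16 := ⟨_, rfl⟩
  have hmin : 0 < min δ ω := lt_min hδ hω
  have hd0 : 0 < d := by rw [hd]; positivity
  have h16 : 16 * d = min δ ω := by rw [hd]; ring
  obtain ⟨Δ, c, hc, ε, hε, n₀, hn₀⟩ := main_small ω d hd0 hω2 (by
    rw [h16]
    exact min_le_right _ _)
  refine ⟨Δ, c, hc, ε, hε, max n₀ 1, fun n hn => ?_⟩
  obtain ⟨H, g, hg, hdeg, hH⟩ := hn₀ n (le_of_max_le_left hn)
  refine ⟨H, g, hg, hdeg, fun N G f hf hG => ?_⟩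
  obtain ⟨col, hcol⟩ := hH N G f hf hG
  refine ⟨col, fun φ hφ => ?_⟩
  have hle : 16 * d ≤ δ := by rw [h16]; exact min_le_left _ _
  rcases hcol φ hφ with h | h
  · exact Or.inl h
  · refine Or.inr fun a ha1 ha2 => ?_
    have hw : (1 + a) / 3 + 16 * d ≤ (1 + a) / 3 + δ := by linarith
    rcases h a ha1 (by linarith) with h' | h'
    · exact Or.inl (h'.mono (le_of_max_le_right hn) hw)
    · exact Or.inr (h'.mono (le_of_max_le_right hn) le_rfl hw)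

end Pool.Agent.UCS
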