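import Pool.Agent.UCS.Defs

/-!
# UCS Scale: for most positions some level has a fibre of the right size

Levels `A 0, A 1, .., A I` of windows, each class of `A (i + 1)` meets at most `q` classes of
`A i`; each class of `A 0` meets at most `ρ` classes of `B`. `F_i(p)` = size of the class of `p`
for `A i`, `F_B(p)` = size of its class for `B`.

PROOF. (1) For `i < I`: `P * |{p : F_(i+1)(p) > q P F_i(p)}| ≤ M`: a class `C` of `A (i + 1)` meets
at most `q` classes of `A i`; the `p ∈ C` with `F_i(p) < |C| / (q P)` lie in these classes, fewer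
than `|C| / (q P)` in each, so fewer than `|C| / P` altogether (times `P`: at most `|C|`); sum over the
classes `C`. Same for `B` and `A 0`: `P * |{p : F_0(p) > ρ P F_B(p)}| ≤ M`.
(2) Let `p` be in none of these `I + 1` sets, `F_B(p) ≤ μ` (at most `C0` exceptions) and
`ℓ ≤ F_I(p)` (at most `D0` exceptions). Let `i ≤ I` be the first level with `ℓ ≤ F_i(p)`. If
`i = 0` then `F_0(p) ≤ ρ P F_B(p) ≤ ρ P μ ≤ μ2`; if `i > 0` then
`F_i(p) ≤ q P F_(i-1)(p) ≤ q P ℓ ≤ μ2`.
(3) The number of exceptions is at most `C0 + D0 + (I + 1) M / P ≤ M / 8 + M / 8`. (Work with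
`P * number ≤ P (C0 + D0) + (I + 1) M`.)
-/

set_option autoImplicit false

namespace Pool.Agent.UCS

private lemma step {M : ℕ} {β γ : Type} [DecidableEq β] [DecidableEq γ] (A : Fin M → γ)
    (B : Fin M → β) (q P : ℕ)
    (h : ∀ v, ((Finset.univ.filter (fun p => A p = v)).image B).card ≤ q) :
    P * (Finset.univ.filter (fun p =>
      q * P * (Finset.univ.filter (fun p' => B p' = B p)).card <
        (Finset.univ.filter (fun p' => A p' = A p)).card)).card ≤ M := by
  set S := Finset.univ.filter (fun p =>
      q * P * (Finset.univ.filter (fun p' => B p' = B p)).card <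
        (Finset.univ.filter (fun p' => A p' = A p)).card) with hS
  have hcl : ∀ v, P * (S.filter (fun p => A p = v)).card ≤
      (Finset.univ.filter (fun p => A p = v)).card := by
    intro v
    set C := Finset.univ.filter (fun p => A p = v) with hC
    set T := S.filter (fun p => A p = v) with hT
    have hTC : ∀ p ∈ T, B p ∈ C.image B := by
      intro p hp
      refine Finset.mem_image_of_mem _ ?_
      rw [hC, Finset.mem_filter]
      exact ⟨Finset.mem_univ _, (Finset.mem_filter.1 hp).2⟩
    have hsum := Finset.card_eq_sum_card_fiberwise (f := B) (s := T) (t := C.image B) hTC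
    have hb : ∀ b ∈ C.image B, q * P * (T.filter (fun p => B p = b)).card ≤ C.card := by
      intro b _
      rcases (T.filter (fun p => B p = b)).eq_empty_or_nonempty with h0 | ⟨p, hp⟩
      · rw [h0, Finset.card_empty, Nat.mul_zero]
        exact Nat.zero_le _
      · have hp1 := Finset.mem_filter.1 hp
        have hp2 := Finset.mem_filter.1 hp1.1
        have hp3 := (Finset.mem_filter.1 hp2.1).2
        have e1 : Finset.univ.filter (fun p' => A p' = A p) = C := by rw [hp2.2]
        rw [e1] at hp3
        refine le_trans ?_ hp3.le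
        refine Nat.mul_le_mul_left _ (Finset.card_le_card ?_)
        intro p' hp'
        rw [Finset.mem_filter]
        exact ⟨Finset.mem_univ _, (Finset.mem_filter.1 hp').2.trans hp1.2.symm⟩
    have h1 : q * (P * T.card) ≤ q * C.card := by
      calc q * (P * T.card) = ∑ b ∈ C.image B, q * P * (T.filter (fun p => B p = b)).card := by
            rw [hsum, Finset.mul_sum, Finset.mul_sum]
            exact Finset.sum_congr rfl fun b _ => by ring
        _ ≤ ∑ b ∈ C.image B, C.card := Finset.sum_le_sum hb
        _ = (C.image B).card * C.card := by rw [Finset.sum_const, smul_eq_mul]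
        _ ≤ q * C.card := Nat.mul_le_mul_right _ (h v)
    rcases Nat.eq_zero_or_pos q with hq | hq
    · have h2 : (C.image B).card = 0 := Nat.le_zero.1 (hq ▸ h v)
      have h3 : C = ∅ := by
        rw [Finset.card_eq_zero, Finset.image_eq_empty] at h2
        exact h2
      have h4 : T = ∅ := by
        rw [Finset.eq_empty_iff_forall_notMem]
        intro p hp
        have := hTC p hp
        rw [h3, Finset.image_empty] at this
        exact absurd this (Finset.notMem_empty _)
      rw [h4, Finset.card_empty, Nat.mul_zero]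
      exact Nat.zero_le _
    · exact Nat.le_of_mul_le_mul_left h1 hq
  have hS1 := Finset.card_eq_sum_card_fiberwise (f := A) (s := S) (t := Finset.univ.image A)
    (fun p _ => Finset.mem_image_of_mem _ (Finset.mem_univ p))
  have hM := Finset.card_eq_sum_card_fiberwise (f := A) (s := (Finset.univ : Finset (Fin M)))
    (t := Finset.univ.image A) (fun p _ => Finset.mem_image_of_mem _ (Finset.mem_univ p))
  calc P * S.card = ∑ v ∈ Finset.univ.image A, P * (S.filter (fun p => A p = v)).card := by
        rw [hS1, Finset.mul_sum]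
    _ ≤ ∑ v ∈ Finset.univ.image A, (Finset.univ.filter (fun p => A p = v)).card :=
        Finset.sum_le_sum fun v _ => hcl v
    _ = (Finset.univ : Finset (Fin M)).card := hM.symm
    _ = M := by rw [Finset.card_univ, Fintype.card_fin]

open Classical in
theorem scale (M I q ρ μ μ2 ℓ C0 D0 P r : ℕ) (B : Fin M → ℕ) (A : ℕ → Fin M → Fin r)
    (hB : (Finset.univ.filter (fun p =>
      μ < (Finset.univ.filter (fun p' => B p' = B p)).card)).card ≤ C0)
    (hBA : ∀ v, ((Finset.univ.filter (fun p => A 0 p = v)).image B).card ≤ ρ)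
    (hAA : ∀ i, i < I → ∀ v, ((Finset.univ.filter (fun p => A (i + 1) p = v)).image (A i)).card ≤ q)
    (hI : (Finset.univ.filter (fun p =>
      (Finset.univ.filter (fun p' => A I p' = A I p)).card < ℓ)).card ≤ D0)
    (h1 : ρ * P * μ ≤ μ2) (h2 : q * P * ℓ ≤ μ2) (h3 : 8 * (C0 + D0) ≤ M) (h4 : 8 * (I + 1) ≤ P) :
    4 * (Finset.univ.filter (fun p => ¬ ∃ i ≤ I,
      ℓ ≤ (Finset.univ.filter (fun p' => A i p' = A i p)).card ∧
      (Finset.univ.filter (fun p' => A i p' = A i p)).card ≤ μ2)).card ≤ M := by
  set F : ℕ → Fin M → ℕ := fun i p => (Finset.univ.filter (fun p' => A i p' = A i p)).card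
    with hF
  set FB : Fin M → ℕ := fun p => (Finset.univ.filter (fun p' => B p' = B p)).card with hFB
  set X0 := Finset.univ.filter (fun p => μ < FB p) with hX0
  set X1 := Finset.univ.filter (fun p => F I p < ℓ) with hX1
  set XB := Finset.univ.filter (fun p => ρ * P * FB p < F 0 p) with hXB
  set X : ℕ → Finset (Fin M) := fun i =>
    Finset.univ.filter (fun p => q * P * F i p < F (i + 1) p) with hX
  set S := Finset.univ.filter (fun p => ¬ ∃ i ≤ I, ℓ ≤ F i p ∧ F i p ≤ μ2) with hS
  have hXB' : P * XB.card ≤ M := step (A 0) B ρ P hBA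
  have hX' : ∀ i ∈ Finset.range I, P * (X i).card ≤ M := fun i hi =>
    step (A (i + 1)) (A i) q P (hAA i (Finset.mem_range.1 hi))
  have hsub : S ⊆ X0 ∪ X1 ∪ XB ∪ (Finset.range I).biUnion X := by
    intro p hp
    have hp' := (Finset.mem_filter.1 hp).2
    by_contra hcon
    simp only [Finset.mem_union, Finset.mem_biUnion, not_or, not_exists, not_and] at hcon
    obtain ⟨⟨⟨c0, c1⟩, cB⟩, cX⟩ := hcon
    have d0 : FB p ≤ μ := by
      by_contra hh
      exact c0 (Finset.mem_filter.2 ⟨Finset.mem_univ _, not_le.1 hh⟩)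
    have d1 : ℓ ≤ F I p := by
      by_contra hh
      exact c1 (Finset.mem_filter.2 ⟨Finset.mem_univ _, not_le.1 hh⟩)
    have dB : F 0 p ≤ ρ * P * FB p := by
      by_contra hh
      exact cB (Finset.mem_filter.2 ⟨Finset.mem_univ _, not_le.1 hh⟩)
    have dX : ∀ i, i < I → F (i + 1) p ≤ q * P * F i p := by
      intro i hi
      by_contra hh
      exact cX i (Finset.mem_range.2 hi) (Finset.mem_filter.2 ⟨Finset.mem_univ _, not_le.1 hh⟩)
    have hex : ∃ i, ℓ ≤ F i p := ⟨I, d1⟩
    have hi1 := Nat.find_spec hex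
    have hi2 : Nat.find hex ≤ I := Nat.find_min' hex d1
    refine hp' ⟨Nat.find hex, hi2, hi1, ?_⟩
    rcases Nat.eq_zero_or_pos (Nat.find hex) with h0 | h0
    · rw [h0]
      calc F 0 p ≤ ρ * P * FB p := dB
        _ ≤ ρ * P * μ := Nat.mul_le_mul_left _ d0
        _ ≤ μ2 := h1
    · obtain ⟨j, hj⟩ : ∃ j, Nat.find hex = j + 1 := ⟨Nat.find hex - 1, by omega⟩
      have hjlt : j < Nat.find hex := by omega
      have hj2 : F j p < ℓ := not_le.1 (Nat.find_min hex hjlt)
      rw [hj]
      calc F (j + 1) p ≤ q * P * F j p := dX j (by omega)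
        _ ≤ q * P * ℓ := Nat.mul_le_mul_left _ hj2.le
        _ ≤ μ2 := h2
  have hcard : S.card ≤ X0.card + X1.card + XB.card + ∑ i ∈ Finset.range I, (X i).card := by
    calc S.card ≤ (X0 ∪ X1 ∪ XB ∪ (Finset.range I).biUnion X).card := Finset.card_le_card hsub
      _ ≤ (X0 ∪ X1 ∪ XB).card + ((Finset.range I).biUnion X).card := Finset.card_union_le _ _
      _ ≤ ((X0 ∪ X1).card + XB.card) + ∑ i ∈ Finset.range I, (X i).card :=
          Nat.add_le_add (Finset.card_union_le _ _) Finset.card_biUnion_le
      _ ≤ _ := by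
          have := Finset.card_union_le X0 X1
          omega
  have hsum : P * ∑ i ∈ Finset.range I, (X i).card ≤ I * M := by
    rw [Finset.mul_sum]
    calc ∑ i ∈ Finset.range I, P * (X i).card ≤ ∑ _i ∈ Finset.range I, M := Finset.sum_le_sum hX'
      _ = I * M := by rw [Finset.sum_const, Finset.card_range, smul_eq_mul]
  have hB' : X0.card ≤ C0 := hB
  have hI' : X1.card ≤ D0 := hI
  have hP : 0 < P := by omega
  have k1 : P * S.card ≤ P * (C0 + D0) + (I + 1) * M := by
    have k2 : P * S.card ≤
        P * (X0.card + X1.card + XB.card + ∑ i ∈ Finset.range I, (X i).card) :=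
      Nat.mul_le_mul_left _ hcard
    have k3 : P * (X0.card + X1.card + XB.card + ∑ i ∈ Finset.range I, (X i).card) =
        P * (X0.card + X1.card) + P * XB.card + P * ∑ i ∈ Finset.range I, (X i).card := by
      ring
    have k4 : P * (X0.card + X1.card) ≤ P * (C0 + D0) :=
      Nat.mul_le_mul_left _ (Nat.add_le_add hB' hI')
    have k5 : (I + 1) * M = I * M + M := by ring
    omega
  have k6 : P * (8 * S.card) ≤ P * (2 * M) := by
    calc P * (8 * S.card) = 8 * (P * S.card) := by ring
      _ ≤ 8 * (P * (C0 + D0) + (I + 1) * M) := Nat.mul_le_mul_left _ k1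
      _ = P * (8 * (C0 + D0)) + 8 * (I + 1) * M := by ring
      _ ≤ P * M + P * M := Nat.add_le_add (Nat.mul_le_mul_left _ h3) (Nat.mul_le_mul_right _ h4)
      _ = P * (2 * M) := by ring
  have k7 : 8 * S.card ≤ 2 * M := Nat.le_of_mul_le_mul_left k6 hP
  show 4 * S.card ≤ M
  omega

end Pool.Agent.UCS
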