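import Pool.Agent.UCS.Defs

/-!
# UCS StructB: the levels of a copy

PROOF. `B1 p = R (5 p) / Γ'`, `B2 q = R (5 M + 5 q) / Γ'`, `A1 i p = R (5 p) / (L * q ^ i)`,
`A2 i q' = R (5 M + 5 q') / (L * q ^ i)`; by `R1`, `R2` with `c = 0` these are the values of `rk`,
hence `< m` by `XE`, `hrk`; monotone by `mono`. Counts of dense classes: the indices `5 p` (or
`5 M + 5 q`) are counted in `hD`. A class of `A1 0` is contained in an interval of ranks of length
`L`, which meets at most `L / Γ' + 2` intervals `[Γ' v, Γ' v + Γ')`. A class of `A1 (i + 1)` with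
value `v` has `R (5 p) / (L q ^ i) ∈ [q v, q v + q)`. The number of values of `A1 I` is at most
`m / (L q ^ I) + 1`, so at most `(m / (L q ^ I) + 1) ℓ` points lie in classes with fewer than `ℓ`
points.
-/

set_option autoImplicit false

namespace Pool.Agent.UCS

open Pool.Agent.UCR

open Classical in
private lemma side (M m I q L Γ' μ C0 ℓ N : ℕ) (R : ℕ → ℕ) (idx : Fin M → ℕ)
    (hidx : StrictMono idx) (hN : ∀ p, idx p < N)
    (hmono : ∀ i j : ℕ, i < j → j < N → R i < R j) (hm : ∀ p, R (idx p) < m)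
    (hq : 0 < q) (hL : 0 < L) (hΓ' : 0 < Γ')
    (hD : ((Finset.range N).filter (fun i => μ <
      ((Finset.range N).filter (fun i' => R i' / Γ' = R i / Γ')).card)).card ≤ C0) :
    ∃ (B1 : Fin M → ℕ) (A1 : ℕ → Fin M → Fin m),
      (∀ i, Monotone (A1 i)) ∧
      (∀ i p, (A1 i p : ℕ) = R (idx p) / (L * q ^ i)) ∧
      ((Finset.univ.filter (fun p =>
        μ < (Finset.univ.filter (fun p' => B1 p' = B1 p)).card)).card ≤ C0) ∧
      (∀ v, ((Finset.univ.filter (fun p => A1 0 p = v)).image B1).card ≤ L / Γ' + 2) ∧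
      (∀ i v, ((Finset.univ.filter (fun p => A1 (i + 1) p = v)).image (A1 i)).card ≤ q) ∧
      ((Finset.univ.filter (fun p =>
        (Finset.univ.filter (fun p' => A1 I p' = A1 I p)).card < ℓ)).card
          ≤ (m / (L * q ^ I) + 1) * ℓ) := by
  refine ⟨fun p => R (idx p) / Γ', fun i p => ⟨R (idx p) / (L * q ^ i),
    lt_of_le_of_lt (Nat.div_le_self _ _) (hm p)⟩, ?_, fun _ _ => rfl, ?_, ?_, ?_, ?_⟩
  · intro i p p' hpp
    rw [Fin.le_def]
    refine Nat.div_le_div_right ?_
    rcases eq_or_lt_of_le hpp with h | h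
    · rw [h]
    · exact le_of_lt (hmono _ _ (hidx h) (hN p'))
  · refine le_trans (Finset.card_le_card_of_injOn idx ?_ (hidx.injective.injOn)) hD
    intro p hp
    have hp' := (Finset.mem_filter.1 (Finset.mem_coe.1 hp)).2
    refine Finset.mem_coe.2 (Finset.mem_filter.2 ⟨Finset.mem_range.2 (hN p), ?_⟩)
    refine lt_of_lt_of_le hp' (Finset.card_le_card_of_injOn idx ?_ (hidx.injective.injOn))
    intro p' hp'
    have h := (Finset.mem_filter.1 (Finset.mem_coe.1 hp')).2
    exact Finset.mem_coe.2 (Finset.mem_filter.2 ⟨Finset.mem_range.2 (hN p'), h⟩)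
  · intro v
    have hsub : (Finset.univ.filter (fun p : Fin M => (⟨R (idx p) / (L * q ^ 0),
        lt_of_le_of_lt (Nat.div_le_self _ _) (hm p)⟩ : Fin m) = v)).image
          (fun p => R (idx p) / Γ') ⊆
        Finset.Icc (L * (v : ℕ) / Γ') ((L * (v : ℕ) + L) / Γ') := by
      intro x hx
      obtain ⟨p, hp, rfl⟩ := Finset.mem_image.1 hx
      have hp' : R (idx p) / (L * q ^ 0) = (v : ℕ) := congrArg Fin.val (Finset.mem_filter.1 hp).2
      rw [pow_zero, mul_one] at hp'
      have h1 : L * (v : ℕ) ≤ R (idx p) := by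
        rw [← hp']
        exact Nat.mul_div_le _ _
      have h2 : R (idx p) ≤ L * (v : ℕ) + L := by
        rw [← hp']
        exact le_of_lt (Nat.lt_mul_div_succ _ hL)
      exact Finset.mem_Icc.2 ⟨Nat.div_le_div_right h1, Nat.div_le_div_right h2⟩
    refine le_trans (Finset.card_le_card hsub) ?_
    rw [Nat.card_Icc, Nat.add_div hΓ']
    generalize L * (v : ℕ) / Γ' = a
    generalize L / Γ' = b
    split_ifs <;> omega
  · intro i v
    refine le_trans ?_ (le_of_eq (show (Finset.Ico (q * (v : ℕ)) (q * (v : ℕ) + q)).card = q by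
      rw [Nat.card_Ico]; omega))
    refine Finset.card_le_card_of_injOn (fun x : Fin m => (x : ℕ)) ?_
      (fun _ _ _ _ h => Fin.ext h)
    intro x hx
    obtain ⟨p, hp, rfl⟩ := Finset.mem_image.1 (Finset.mem_coe.1 hx)
    have hp' : R (idx p) / (L * q ^ (i + 1)) = (v : ℕ) :=
      congrArg Fin.val (Finset.mem_filter.1 hp).2
    have h3 : R (idx p) / (L * q ^ i) / q = (v : ℕ) := by
      rw [Nat.div_div_eq_div_mul, mul_assoc, ← pow_succ]
      exact hp'
    refine Finset.mem_coe.2 (Finset.mem_Ico.2 ⟨?_, ?_⟩)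
    · show q * (v : ℕ) ≤ R (idx p) / (L * q ^ i)
      rw [← h3]
      exact Nat.mul_div_le _ _
    · show R (idx p) / (L * q ^ i) < q * (v : ℕ) + q
      rw [← h3]
      exact Nat.lt_mul_div_succ _ hq
  · set A : Fin M → Fin m := fun p => ⟨R (idx p) / (L * q ^ I),
      lt_of_le_of_lt (Nat.div_le_self _ _) (hm p)⟩ with hA
    set S := Finset.univ.filter (fun p : Fin M =>
        (Finset.univ.filter (fun p' => A p' = A p)).card < ℓ) with hS
    have h1 : S.card ≤ ℓ * (S.image A).card := by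
      refine Finset.card_le_mul_card_image _ ℓ ?_
      intro a ha
      obtain ⟨p, hp, rfl⟩ := Finset.mem_image.1 ha
      refine le_trans (Finset.card_le_card ?_) (le_of_lt (Finset.mem_filter.1 hp).2)
      intro p' hp'
      exact Finset.mem_filter.2 ⟨Finset.mem_univ _, (Finset.mem_filter.1 hp').2⟩
    have h2 : (S.image A).card ≤ m / (L * q ^ I) + 1 := by
      refine le_trans ?_ (le_of_eq (Finset.card_range (m / (L * q ^ I) + 1)))
      refine Finset.card_le_card_of_injOn (fun x : Fin m => (x : ℕ)) ?_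
        (fun _ _ _ _ h => Fin.ext h)
      intro x hx
      obtain ⟨p, hp, rfl⟩ := Finset.mem_image.1 (Finset.mem_coe.1 hx)
      refine Finset.mem_coe.2 (Finset.mem_range.2 (Nat.lt_succ_of_le ?_))
      exact Nat.div_le_div_right (le_of_lt (hm p))
    calc S.card ≤ ℓ * (S.image A).card := h1
      _ ≤ ℓ * (m / (L * q ^ I) + 1) := Nat.mul_le_mul_left _ h2
      _ = (m / (L * q ^ I) + 1) * ℓ := Nat.mul_comm _ _

open Classical in
theorem phases {V : Type} (E : Finset (Sym2 V)) (rk : Sym2 V → ℕ) (M t B : ℕ)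
    (σ : Equiv.Perm (Fin M)) (ce : Fin B → Fin t × Fin t) (X : Fin M → ZMod 5 → V)
    (Y : Fin M → Fin t → V) (R : ℕ → ℕ) (hc : IsCopy E rk M t B σ ce X Y R)
    (m I q L Γ' μ C0 ℓ : ℕ) (hrk : ∀ e ∈ E, rk e < m) (hq : 0 < q) (hL : 0 < L) (hΓ' : 0 < Γ')
    (hD : ((Finset.range ((10 + B) * M)).filter (fun i => μ <
      ((Finset.range ((10 + B) * M)).filter (fun i' => R i' / Γ' = R i / Γ')).card)).card ≤ C0) :
    ∃ (B1 B2 : Fin M → ℕ) (A1 A2 : ℕ → Fin M → Fin m),
      (∀ i, Monotone (A1 i)) ∧ (∀ i, Monotone (A2 i)) ∧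
      (∀ i p, (A1 i p : ℕ) = rk s(X p 0, X p 1) / (L * q ^ i)) ∧
      (∀ i p, (A2 i (σ p) : ℕ) = rk s(X p 0, X p 2) / (L * q ^ i)) ∧
      ((Finset.univ.filter (fun p =>
        μ < (Finset.univ.filter (fun p' => B1 p' = B1 p)).card)).card ≤ C0) ∧
      ((Finset.univ.filter (fun p =>
        μ < (Finset.univ.filter (fun p' => B2 p' = B2 p)).card)).card ≤ C0) ∧
      (∀ v, ((Finset.univ.filter (fun p => A1 0 p = v)).image B1).card ≤ L / Γ' + 2) ∧
      (∀ v, ((Finset.univ.filter (fun p => A2 0 p = v)).image B2).card ≤ L / Γ' + 2) ∧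
      (∀ i v, ((Finset.univ.filter (fun p => A1 (i + 1) p = v)).image (A1 i)).card ≤ q) ∧
      (∀ i v, ((Finset.univ.filter (fun p => A2 (i + 1) p = v)).image (A2 i)).card ≤ q) ∧
      ((Finset.univ.filter (fun p =>
        (Finset.univ.filter (fun p' => A1 I p' = A1 I p)).card < ℓ)).card
          ≤ (m / (L * q ^ I) + 1) * ℓ) ∧
      ((Finset.univ.filter (fun p =>
        (Finset.univ.filter (fun p' => A2 I p' = A2 I p)).card < ℓ)).card
          ≤ (m / (L * q ^ I) + 1) * ℓ) := by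
  have hr1 : ∀ p : Fin M, rk s(X p 0, X p 1) = R (5 * (p : ℕ)) := by
    intro p
    have h := hc.R1 p 0
    rw [zero_add] at h
    exact h
  have hr2 : ∀ p : Fin M, rk s(X p 0, X p 2) = R (5 * M + 5 * (σ p : ℕ)) := by
    intro p
    have h := hc.R2 p 0
    rw [zero_add] at h
    exact h
  have h01 : (0 : ZMod 5) ≠ 1 := by decide
  have h02 : (0 : ZMod 5) ≠ 2 := by decide
  have hM : ∀ p : Fin M, 10 * M ≤ (10 + B) * M := fun _ =>
    Nat.mul_le_mul_right _ (Nat.le_add_right _ _)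
  obtain ⟨B1, A1, hA1, hA1', hB1, hB1', hA1'', hA1c⟩ := side M m I q L Γ' μ C0 ℓ
    ((10 + B) * M) R (fun p => 5 * (p : ℕ))
    (fun p p' h => by
      have : (p : ℕ) < (p' : ℕ) := h
      show 5 * (p : ℕ) < 5 * (p' : ℕ)
      omega)
    (fun p => by
      have h1 := hM p
      have h2 := p.isLt
      show 5 * (p : ℕ) < (10 + B) * M
      omega)
    hc.mono
    (fun p => by
      show R (5 * (p : ℕ)) < m
      rw [← hr1 p]
      exact hrk _ (hc.XE p 0 1 h01)) hq hL hΓ' hD
  obtain ⟨B2, A2, hA2, hA2', hB2, hB2', hA2'', hA2c⟩ := side M m I q L Γ' μ C0 ℓ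
    ((10 + B) * M) R (fun p => 5 * M + 5 * (p : ℕ))
    (fun p p' h => by
      have : (p : ℕ) < (p' : ℕ) := h
      show 5 * M + 5 * (p : ℕ) < 5 * M + 5 * (p' : ℕ)
      omega)
    (fun p => by
      have h1 := hM p
      have h2 := p.isLt
      show 5 * M + 5 * (p : ℕ) < (10 + B) * M
      omega)
    hc.mono
    (fun p => by
      show R (5 * M + 5 * (p : ℕ)) < m
      have h := hr2 (σ.symm p)
      rw [Equiv.apply_symm_apply] at h
      rw [← h]
      exact hrk _ (hc.XE _ 0 2 h02)) hq hL hΓ' hD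
  refine ⟨B1, B2, A1, A2, hA1, hA2, ?_, ?_, hB1, hB2, hB1', hB2', hA1'', hA2'', hA1c, hA2c⟩
  · intro i p
    rw [hA1' i p, hr1 p]
  · intro i p
    rw [hA2' i (σ p), hr2 p]

end Pool.Agent.UCS
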