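import Pool.Agent.UCS.One
import Pool.Agent.UCS.Scale
import Pool.Agent.UCS.Data
import Pool.Agent.UCS.StructB
import Pool.Agent.UCR.Spread2

/-!
# UCS Multi: one colouring for all window sizes
-/

set_option autoImplicit false

namespace Pool.Agent.UCS

open Pool.Agent.UCR

open Classical in
theorem multi {V : Type} [Fintype V] [DecidableEq V] (E : Finset (Sym2 V))
    (rk : Sym2 V → ℕ) (hinj : Set.InjOn rk (E : Set (Sym2 V))) (m : ℕ) (hm : E.card ≤ m)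
    (hm0 : 0 < m) (hrk : ∀ e ∈ E, rk e < m) (k t B h C0 s I : ℕ)
    (Γ lam Q q μ2 ℓ : Fin s → ℕ)
    (σ : Equiv.Perm (Fin (2 ^ k))) (hσ : Mixing k σ)
    (ce : Fin B → Fin t × Fin t) (hce : Function.Injective ce)
    (hce2 : ∀ a b : Fin t, a < b → ∃ h, ce h = (a, b))
    (ht : 5 ≤ t) (hs : 0 < s) (hhs : s * (I + 1) ^ 2 * (2 * h) ≤ t * (t - 1) / 2)
    (hΓ : ∀ j, 0 < Γ j) (hq : ∀ j, 0 < q j)
    (hlam : ∀ j, 108 * (4 * Γ j) < lam j ^ 3)
    (hQ : ∀ j, 0 < Q j) (hℓ : ∀ j, 0 < ℓ j)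
    (hred : ∀ j, 4 * (2 * m) ^ t * 4 ^ (t * (t - 1) / 2) * (40 * lam j) ^ h ≤ Q j ^ h)
    (hb : ∀ j, 4 * (Q j : ℝ) * (4 * 2 ^ k / ℓ j + μ2 j)
      ≤ 2 ^ k / (2 * (I + 1) ^ 2 * (k + 1) ^ 2))
    (hnum : ∀ j, 4 * (Q j : ℝ) * (32 * μ2 j + 16 * 2 ^ k / ℓ j) *
      (Real.log (m * (2 ^ k + 1) ^ 2) + Real.log (4 * (k + 1) ^ 2))
        ≤ 2 ^ k / (2 * (I + 1) ^ 2 * (k + 1) ^ 2))
    (hP : ∀ j, 8 * (I + 1) ≤ q j) (hqq : ∀ j, q j * q j * ℓ j ≤ μ2 j)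
    (hD : ∀ j, 8 * (C0 + (m / (4 * Γ j * q j ^ I) + 1) * ℓ j) ≤ 2 ^ k)
    (hsum : s * (I + 1) * C0 < 2 ^ k) :
    ∃ col : Sym2 V → Bool, ∀ (X : Fin (2 ^ k) → ZMod 5 → V) (Y : Fin (2 ^ k) → Fin t → V)
      (R : ℕ → ℕ), IsCopy E rk (2 ^ k) t B σ ce X Y R →
      (∃ b : Bool, (∀ p (a a' : ZMod 5), a ≠ a' → col s(X p a, X p a') = b) ∧
        ∀ p (a a' : Fin t), a ≠ a' → col s(Y p a, Y p a') = b) →
      (∀ (j : Fin s) (i : ℕ), i ≤ I →
        ((Finset.range ((10 + B) * 2 ^ k)).filter (fun x => 2 ^ k ≤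
          ((Finset.range ((10 + B) * 2 ^ k)).filter
            (fun x' => R x' / (4 * Γ j * q j ^ i) = R x / (4 * Γ j * q j ^ i))).card)).card
              ≤ C0) →
      ∀ (j : Fin s) (Γ' μ : ℕ), 0 < Γ' → Γ' ≤ Γ j →
      (4 * Γ j / Γ' + 2) * q j * μ ≤ μ2 j → μ ≤ μ2 j →
      ((Finset.range ((10 + B) * 2 ^ k)).filter (fun i => μ <
        ((Finset.range ((10 + B) * 2 ^ k)).filter (fun i' => R i' / Γ' = R i / Γ')).card)).card
          ≤ C0 →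
      ((Finset.range ((10 + B) * 2 ^ k)).filter
        (fun i => i + 1 < (10 + B) * 2 ^ k ∧ Γ' < R (i + 1) - R i)).card ≤ μ → False := by
  have hLq : ∀ (j : Fin s) (i : ℕ), 4 * Γ j ≤ 4 * Γ j * q j ^ i := fun j i =>
    Nat.le_mul_of_pos_right _ (pow_pos (hq j) i)
  have hL0 : ∀ (j : Fin s) (i : ℕ), 0 < 4 * Γ j * q j ^ i := fun j i =>
    lt_of_lt_of_le (by have := hΓ j; omega) (hLq j i)
  have hone := fun (x : Fin s × Fin (I + 1) × Fin (I + 1)) =>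
    one_type E rk hinj m hm hm0 k t B h (Γ x.1) (4 * Γ x.1 * q x.1 ^ (x.2.1 : ℕ))
      (4 * Γ x.1 * q x.1 ^ (x.2.2 : ℕ)) (lam x.1) (Q x.1) (μ2 x.1) (ℓ x.1)
      (2 ^ k / (2 * (I + 1) ^ 2 * (k + 1) ^ 2)) σ ce ht (hΓ x.1) (hLq _ _) (hLq _ _) (hlam x.1)
      (hQ x.1) (hℓ x.1) (hred x.1) (hb x.1) (hnum x.1)
  choose red hredY hredX using hone
  refine ⟨fun e => decide (∃ x, red x e), fun X Y R hc hcol hbig j Γ' μ hΓ' hΓΓ hρ hμ hC1 hG => ?_⟩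
  obtain ⟨b, hX, hY⟩ := hcol
  cases b with
  | false =>
    obtain ⟨B1, B2, A1, A2, hm1, hm2, hA1, hA2, hB1, hB2, hBA1, hBA2, hAA1, hAA2, hI1, hI2⟩ :=
      phases E rk (2 ^ k) t B σ ce X Y R hc m I (q j) (4 * Γ j) Γ' μ C0 (ℓ j) hrk (hq j)
        (by have := hΓ j; omega) hΓ' hC1
    have hs1 := scale (2 ^ k) I (q j) (4 * Γ j / Γ' + 2) μ (μ2 j) (ℓ j) C0 _ (q j) m B1 A1 hB1
      hBA1 (fun i _ v => hAA1 i v) hI1 hρ (hqq j) (hD j) (hP j)
    have hs2 := scale (2 ^ k) I (q j) (4 * Γ j / Γ' + 2) μ (μ2 j) (ℓ j) C0 _ (q j) m B2 A2 hB2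
      hBA2 (fun i _ v => hAA2 i v) hI2 hρ (hqq j) (hD j) (hP j)
    obtain ⟨i1, hi1, i2, hi2, u, hu, v, hv, hu1, hu2, hv1, hv2, d1, d2, hA, hwt, hlarge⟩ :=
      exists_data k I σ hσ m (μ2 j) (ℓ j) A1 A2 hm1 hm2 hs1 hs2
    have hG' : ((Finset.range ((10 + B) * 2 ^ k)).filter
        (fun i => i + 1 < (10 + B) * 2 ^ k ∧ Γ j < R (i + 1) - R i)).card ≤ μ2 j := by
      refine le_trans (Finset.card_le_card ?_) (hG.trans hμ)
      intro i hi
      rw [Finset.mem_filter] at hi ⊢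
      exact ⟨hi.1, hi.2.1, lt_of_le_of_lt hΓΓ hi.2.2⟩
    have hK : (2 : ℝ) ^ k / (2 * (I + 1) ^ 2 * (k + 1) ^ 2)
        ≤ ((Finset.univ.filter (fun p => ∃ i j, Cnt d1 d2 σ p i j)).card : ℝ) := by
      rw [div_le_iff₀ (by positivity)]
      have : ((2 ^ k : ℕ) : ℝ) ≤ ((2 * (I + 1) ^ 2 * (k + 1) ^ 2 *
          (Finset.univ.filter (fun p => ∃ i j, Cnt d1 d2 σ p i j)).card : ℕ) : ℝ) := by
        exact_mod_cast hlarge
      push_cast at this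
      linarith
    obtain ⟨p, a, a', haa, hr'⟩ := hredX (j, ⟨i1, Nat.lt_succ_of_le hi1⟩,
      ⟨i2, Nat.lt_succ_of_le hi2⟩) X Y R hc hG' (A1 i1) (A2 i2) (hA1 i1) (hA2 i2) u v hu hv hu1
      hu2 hv1 hv2 d1 d2 hA hwt hK
    exact of_decide_eq_false (hX p a a' haa) ⟨_, hr'⟩
  | true =>
    have hbad : ∀ x : Fin s × Fin (I + 1), (Finset.univ.filter (fun p : Fin (2 ^ k) =>
        ¬ ∀ a b a' b' : Fin t, a < b → a' < b' →
          rk s(Y p a, Y p b) / (4 * Γ x.1 * q x.1 ^ (x.2 : ℕ))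
            = rk s(Y p a', Y p b') / (4 * Γ x.1 * q x.1 ^ (x.2 : ℕ)) →
          a = a' ∧ b = b')).card ≤ C0 := fun x =>
      bad_spread E rk (2 ^ k) t B σ ce hce hce2 X Y R hc _ _ (hL0 _ _)
        (hbig x.1 (x.2 : ℕ) (Nat.lt_succ_iff.mp x.2.isLt))
    have hlt : ((Finset.univ : Finset (Fin s × Fin (I + 1))).biUnion (fun x =>
        Finset.univ.filter (fun p : Fin (2 ^ k) =>
        ¬ ∀ a b a' b' : Fin t, a < b → a' < b' →
          rk s(Y p a, Y p b) / (4 * Γ x.1 * q x.1 ^ (x.2 : ℕ))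
            = rk s(Y p a', Y p b') / (4 * Γ x.1 * q x.1 ^ (x.2 : ℕ)) →
          a = a' ∧ b = b'))).card < 2 ^ k := by
      refine lt_of_le_of_lt Finset.card_biUnion_le ?_
      refine lt_of_le_of_lt (Finset.sum_le_sum (fun x _ => hbad x)) ?_
      rw [Finset.sum_const, Finset.card_univ, Fintype.card_prod, Fintype.card_fin,
        Fintype.card_fin, smul_eq_mul]
      exact hsum
    obtain ⟨p, _, hp⟩ := Finset.exists_mem_notMem_of_card_lt_card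
      (lt_of_lt_of_eq hlt (by rw [Finset.card_univ, Fintype.card_fin] :
        2 ^ k = (Finset.univ : Finset (Fin (2 ^ k))).card))
    have hgood : ∀ (j : Fin s) (i : Fin (I + 1)), ∀ a b a' b' : Fin t, a < b → a' < b' →
        rk s(Y p a, Y p b) / (4 * Γ j * q j ^ (i : ℕ))
          = rk s(Y p a', Y p b') / (4 * Γ j * q j ^ (i : ℕ)) → a = a' ∧ b = b' := by
      intro j i
      by_contra hcon
      exact hp (Finset.mem_biUnion.mpr ⟨(j, i), Finset.mem_univ _,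
        Finset.mem_filter.mpr ⟨Finset.mem_univ _, hcon⟩⟩)
    have hcount : (Finset.univ.filter (fun q : Fin t × Fin t => q.1 < q.2)).card
        ≤ ∑ x : Fin s × Fin (I + 1) × Fin (I + 1),
          (Finset.univ.filter (fun q : Fin t × Fin t => q.1 < q.2 ∧
            red x s(Y p q.1, Y p q.2))).card := by
      refine le_trans (Finset.card_le_card ?_) Finset.card_biUnion_le
      intro q hq
      have hq' := (Finset.mem_filter.mp hq).2
      obtain ⟨x, hx⟩ := of_decide_eq_true (hY p q.1 q.2 hq'.ne)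
      exact Finset.mem_biUnion.mpr ⟨x, Finset.mem_univ _,
        Finset.mem_filter.mpr ⟨Finset.mem_univ _, hq', hx⟩⟩
    have hlt2 : ∑ x : Fin s × Fin (I + 1) × Fin (I + 1),
        (Finset.univ.filter (fun q : Fin t × Fin t => q.1 < q.2 ∧
          red x s(Y p q.1, Y p q.2))).card
        < ∑ _x : Fin s × Fin (I + 1) × Fin (I + 1), 2 * h := by
      apply Finset.sum_lt_sum_of_nonempty ⟨(⟨0, hs⟩, 0, 0), Finset.mem_univ _⟩
      intro x _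
      exact hredY x (Y p) (fun a b hab => hc.YE p a b hab.ne) (hgood x.1 x.2.1) (hgood x.1 x.2.2)
    rw [card_pairs] at hcount
    rw [Finset.sum_const, Finset.card_univ, Fintype.card_prod, Fintype.card_prod,
      Fintype.card_fin, Fintype.card_fin, smul_eq_mul] at hlt2
    have : s * ((I + 1) * (I + 1)) * (2 * h) ≤ t * (t - 1) / 2 := by
      rw [← pow_two]
      exact hhs
    omega

end Pool.Agent.UCS
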