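import Pool.Agent.UCR.Defs

/-!
# UCS Small: small counting lemmas
-/

set_option autoImplicit false

namespace Pool.Agent.UCS

open Pool.Agent.UCR

open Classical in
theorem sum_wt_le {k r x1 x2 : ℕ} (σ : Equiv.Perm (Fin (2 ^ k)))
    (d1 : Fin x1 → Fin r × Fin (2 ^ k + 1) × Fin (2 ^ k + 1))
    (d2 : Fin x2 → Fin r × Fin (2 ^ k + 1) × Fin (2 ^ k + 1))
    (A1 A2 : Fin (2 ^ k) → Fin r) (hA : ∀ p i j, Cnt d1 d2 σ p i j → A1 p = i ∧ A2 (σ p) = j)
    (D : Finset (Fin r × Fin r)) (Bad : Finset (Fin (2 ^ k)))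
    (hBad : ∀ p, ∀ T ∈ D, Cnt d1 d2 σ p T.1 T.2 → p ∈ Bad) :
    ∑ T ∈ D, wt d1 d2 σ T ≤ Bad.card := by
  unfold wt
  rw [← Finset.card_biUnion]
  · apply Finset.card_le_card
    intro p hp
    rw [Finset.mem_biUnion] at hp
    obtain ⟨T, hT, hp⟩ := hp
    exact hBad p T hT (Finset.mem_filter.mp hp).2
  · intro T _ T' _ hne
    rw [Function.onFun, Finset.disjoint_left]
    intro p hp hp'
    obtain ⟨h1, h2⟩ := hA p _ _ (Finset.mem_filter.mp hp).2
    obtain ⟨h3, h4⟩ := hA p _ _ (Finset.mem_filter.mp hp').2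
    exact hne (Prod.ext (h1.symm.trans h3) (h2.symm.trans h4))

open Classical in
theorem card_le_sum_wt {k r x1 x2 : ℕ} (σ : Equiv.Perm (Fin (2 ^ k)))
    (d1 : Fin x1 → Fin r × Fin (2 ^ k + 1) × Fin (2 ^ k + 1))
    (d2 : Fin x2 → Fin r × Fin (2 ^ k + 1) × Fin (2 ^ k + 1)) :
    (Finset.univ.filter (fun p => ∃ i j, Cnt d1 d2 σ p i j)).card ≤ ∑ T, wt d1 d2 σ T := by
  unfold wt
  refine le_trans (Finset.card_le_card ?_) Finset.card_biUnion_le
  intro p hp
  obtain ⟨i, j, h⟩ := (Finset.mem_filter.mp hp).2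
  rw [Finset.mem_biUnion]
  exact ⟨(i, j), Finset.mem_univ _, Finset.mem_filter.mpr ⟨Finset.mem_univ _, h⟩⟩

theorem ex_of_filter {α : Type} [Fintype α] (P : α → Prop) (inst : DecidablePred P) (n : ℕ)
    (h : 4 * (@Finset.filter α P inst Finset.univ).card ≤ n) :
    ∃ B : Finset α, (∀ f, f ∈ B ↔ P f) ∧ 4 * B.card ≤ n :=
  ⟨_, fun f => by rw [Finset.mem_filter]; exact and_iff_right (Finset.mem_univ _), h⟩

theorem ex_of_filter' {α : Type} [Fintype α] (P : α → Prop) (inst : DecidablePred P) (q n : ℕ)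
    (h : 4 * ((@Finset.filter α P inst Finset.univ).card : ℝ) ≤ (q : ℝ) ^ n) :
    ∃ B : Finset α, (∀ f, f ∈ B ↔ P f) ∧ 4 * B.card ≤ q ^ n :=
  ex_of_filter P inst _ (by exact_mod_cast h)

/-- the number of pairs `a < b` -/
theorem card_pairs (t : ℕ) :
    (Finset.univ.filter (fun q : Fin t × Fin t => q.1 < q.2)).card = t * (t - 1) / 2 := by
  have h2 : (Finset.univ.filter (fun q : Fin t × Fin t => q.2 < q.1)).card
      = (Finset.univ.filter (fun q : Fin t × Fin t => q.1 < q.2)).card := by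
    refine Finset.card_bij (fun q _ => (q.2, q.1)) ?_ ?_ ?_
    · intro q hq
      simpa using hq
    · intro q _ q' _ h
      rw [Prod.mk.injEq] at h
      exact Prod.ext h.2 h.1
    · intro q hq
      exact ⟨(q.2, q.1), by simpa using hq, rfl⟩
  have h3 : (Finset.univ : Finset (Fin t)).offDiag
      = Finset.univ.filter (fun q : Fin t × Fin t => q.1 < q.2) ∪
        Finset.univ.filter (fun q : Fin t × Fin t => q.2 < q.1) := by
    ext q
    simp only [Finset.mem_offDiag, Finset.mem_univ, true_and, Finset.mem_union, Finset.mem_filter]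
    exact ne_iff_lt_or_gt
  have h4 : Disjoint (Finset.univ.filter (fun q : Fin t × Fin t => q.1 < q.2))
      (Finset.univ.filter (fun q : Fin t × Fin t => q.2 < q.1)) := by
    rw [Finset.disjoint_left]
    intro q hq hq'
    exact lt_asymm (Finset.mem_filter.mp hq).2 (Finset.mem_filter.mp hq').2
  have h5 := Finset.offDiag_card (s := (Finset.univ : Finset (Fin t)))
  rw [h3, Finset.card_union_of_disjoint h4, h2, Finset.card_univ, Fintype.card_fin] at h5
  rw [Nat.mul_sub, mul_one]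
  omega

theorem exists_ce (t : ℕ) :
    ∃ ce : Fin (t * (t - 1) / 2) → Fin t × Fin t, Function.Injective ce ∧
      (∀ i, (ce i).1 < (ce i).2) ∧ ∀ a b : Fin t, a < b → ∃ i, ce i = (a, b) := by
  have hc : Fintype.card {q : Fin t × Fin t // q.1 < q.2} = t * (t - 1) / 2 := by
    rw [← card_pairs t]
    exact Fintype.card_subtype _
  let e := (Fintype.equivFinOfCardEq hc).symm
  exact ⟨fun i => (e i).1, fun i j hij => e.injective (Subtype.ext hij), fun i => (e i).2,
    fun a b hab => ⟨e.symm ⟨(a, b), hab⟩, by simp⟩⟩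

end Pool.Agent.UCS
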