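import Pool.Agent.UCS.Defs

/-!
# UCS StructA: few bad units in few windows

PROOF. Similar to `Pool.Agent.UCR.few_bad` (`Pool/Agent/UCR/StructA.lean`, helper52). Let `p ∈ S`.
If no inner gap of the two pieces `R (5 p + c)` and `R (5 M + 5 σ p + c)`, `c < 5`, of the unit
`p` is longer than `Γ` and `R (5 p) / L1 = R (5 p + 4) / L1`,
`R (5 M + 5 σ p) / L2 = R (5 M + 5 σ p + 4) / L2`, then `X p` is a unit. At most `μ` pieces have a
long inner gap. The map `p ↦ R (5 p) / L1` is injective on the `p ∈ S` with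
`R (5 p) / L1 < R (5 p + 4) / L1` (for `p < p'`: `R (5 p + 4) / L1 ≤ R (5 p') / L1`), with values in
a set of at most `x1` elements (`R1` with `c = 0`); same for phase 2 with `x2` (`R2` with `c = 0`).
-/

set_option autoImplicit false

namespace Pool.Agent.UCS

open Pool.Agent.UCR

/-- a piece: five consecutive ranks without a long gap, in one coarse window -/
private theorem piece (R : ℕ → ℕ) (b L Γ : ℕ) (hΓ : 0 < Γ)
    (hm : ∀ i, b ≤ i → i < b + 4 → R i < R (i + 1))
    (hg : ∀ i, b ≤ i → i < b + 4 → R (i + 1) - R i ≤ Γ)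
    (hL : R b / L = R (b + 4) / L) (c c' : ℕ) (hc : c < 5) (hc' : c' < 5) :
    R (b + c) / L = R (b + c') / L ∧ R (b + c) / (4 * Γ) ≤ R (b + c') / (4 * Γ) + 1 := by
  have h0 := hm b le_rfl (by omega)
  have h1 := hm (b + 1) (by omega) (by omega)
  have h2 := hm (b + 2) (by omega) (by omega)
  have h3 := hm (b + 3) (by omega) (by omega)
  have g0 := hg b le_rfl (by omega)
  have g1 := hg (b + 1) (by omega) (by omega)
  have g2 := hg (b + 2) (by omega) (by omega)
  have g3 := hg (b + 3) (by omega) (by omega)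
  simp only [add_assoc, Nat.reduceAdd] at h1 h2 h3 g1 g2 g3
  have hb : ∀ c < 5, R b ≤ R (b + c) ∧ R (b + c) ≤ R (b + 4) := by
    intro c hc
    interval_cases c <;> (try simp only [add_zero]) <;> omega
  have he : ∀ c < 5, R (b + c) / L = R b / L := by
    intro c hc
    apply le_antisymm
    · rw [hL]; exact Nat.div_le_div_right (hb c hc).2
    · exact Nat.div_le_div_right (hb c hc).1
  refine ⟨(he c hc).trans (he c' hc').symm, ?_⟩
  have h : R (b + c) ≤ R (b + c') + 4 * Γ := by
    have e1 := hb c hc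
    have e2 := hb c' hc'
    omega
  calc R (b + c) / (4 * Γ) ≤ (R (b + c') + 4 * Γ) / (4 * Γ) := Nat.div_le_div_right h
    _ = R (b + c') / (4 * Γ) + 1 := Nat.add_div_right _ (by positivity)

/-- a pair of places of a unit as an edge of class 1 or of class 2 -/
private theorem pairs5 {V : Type} (X : ZMod 5 → V) (d : ZMod 5) (hd : d ≠ 0) :
    ((d = 1 ∨ d = 4) ∧ ∀ a, ∃ c, s(X a, X (a + d)) = s(X c, X (c + 1))) ∨
    (¬ (d = 1 ∨ d = 4) ∧ ∀ a, ∃ c, s(X a, X (a + d)) = s(X c, X (c + 2))) := by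
  have h : d = 1 ∨ d = 4 ∨ d = 2 ∨ d = 3 := by
    revert d
    decide
  rcases h with rfl | rfl | rfl | rfl
  · exact Or.inl ⟨Or.inl rfl, fun a => ⟨a, rfl⟩⟩
  · refine Or.inl ⟨Or.inr rfl, fun a => ⟨a + 4, ?_⟩⟩
    rw [show a + 4 + 1 = a by revert a; decide]
    exact Sym2.eq_swap
  · exact Or.inr ⟨by decide, fun a => ⟨a, rfl⟩⟩
  · refine Or.inr ⟨by decide, fun a => ⟨a + 3, ?_⟩⟩
    rw [show a + 3 + 2 = a by revert a; decide]
    exact Sym2.eq_swap

open Classical in
theorem few_bad {V : Type} (E : Finset (Sym2 V)) (rk : Sym2 V → ℕ) (M t B : ℕ)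
    (σ : Equiv.Perm (Fin M)) (ce : Fin B → Fin t × Fin t) (X : Fin M → ZMod 5 → V)
    (Y : Fin M → Fin t → V) (R : ℕ → ℕ) (hc : IsCopy E rk M t B σ ce X Y R)
    (L1 L2 Γ μ x1 x2 : ℕ) (hΓ : 0 < Γ) (hL1 : 0 < L1) (hL2 : 0 < L2) (S : Finset (Fin M))
    (hS1 : (S.image (fun p => rk s(X p 0, X p 1) / L1)).card ≤ x1)
    (hS2 : (S.image (fun p => rk s(X p 0, X p 2) / L2)).card ≤ x2)
    (hG : ((Finset.range ((10 + B) * M)).filter
      (fun i => i + 1 < (10 + B) * M ∧ Γ < R (i + 1) - R i)).card ≤ μ) :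
    (S.filter (fun p => ¬ IsUnit5 E (fun e => rk e / L1) (fun e => rk e / L2)
      (fun e => rk e / (4 * Γ)) (X p))).card ≤ x1 + x2 + μ := by
  set G := (Finset.range (2 * M)).filter
    (fun P => ∃ i, 5 * P ≤ i ∧ i < 5 * P + 4 ∧ Γ < R (i + 1) - R i) with hGd
  set C1 := S.filter (fun p : Fin M => R (5 * (p : ℕ)) / L1 < R (5 * (p : ℕ) + 4) / L1) with hC1d
  set C2 := S.filter (fun p : Fin M => R (5 * (M + (σ p : ℕ))) / L2
    < R (5 * (M + (σ p : ℕ)) + 4) / L2) with hC2d
  have e4 : 10 * M ≤ (10 + B) * M := Nat.mul_le_mul_right M (by omega)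
  have h1 : G.card ≤ μ := by
    refine le_trans ?_ hG
    have key : ∀ P ∈ G, ∃ i, 5 * P ≤ i ∧ i < 5 * P + 4 ∧ Γ < R (i + 1) - R i :=
      fun P hP => (Finset.mem_filter.mp hP).2
    choose! f hf using key
    refine Finset.card_le_card_of_injOn f (fun P hP => ?_) (fun P hP P' hP' h => ?_)
    · have e := hf P hP
      have e2 : P < 2 * M := Finset.mem_range.mp (Finset.mem_filter.mp hP).1
      simp only [Finset.coe_filter, Finset.mem_range, Set.mem_ofPred_eq]
      exact ⟨by omega, by omega, e.2.2⟩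
    · have e := hf P hP
      have e' := hf P' hP'
      rw [← h] at e'
      omega
  have h2 : C1.card ≤ x1 := by
    refine le_trans ?_ hS1
    refine Finset.card_le_card_of_injOn (fun p => rk s(X p 0, X p 1) / L1)
      (fun p hp => ?_) ?_
    · exact Finset.mem_coe.mpr (Finset.mem_image_of_mem _ (Finset.mem_filter.mp hp).1)
    · intro p hp p' hp' h
      have e3 := (Finset.mem_filter.mp hp).2
      have e3' := (Finset.mem_filter.mp hp').2
      have r1 := hc.R1 p 0
      have r1' := hc.R1 p' 0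
      simp only [ZMod.val_zero, add_zero, zero_add] at r1 r1'
      simp only [r1, r1'] at h
      have l1 := p.isLt
      have l1' := p'.isLt
      rcases lt_trichotomy (p : ℕ) (p' : ℕ) with hl | hl | hl
      · have e5 := Nat.div_le_div_right (c := L1)
          (hc.mono (5 * (p : ℕ) + 4) (5 * (p' : ℕ)) (by omega) (by omega)).le
        omega
      · exact Fin.ext hl
      · have e5 := Nat.div_le_div_right (c := L1)
          (hc.mono (5 * (p' : ℕ) + 4) (5 * (p : ℕ)) (by omega) (by omega)).le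
        omega
  have h3 : C2.card ≤ x2 := by
    refine le_trans ?_ hS2
    refine Finset.card_le_card_of_injOn (fun p => rk s(X p 0, X p 2) / L2)
      (fun p hp => ?_) ?_
    · exact Finset.mem_coe.mpr (Finset.mem_image_of_mem _ (Finset.mem_filter.mp hp).1)
    · intro p hp p' hp' h
      have e3 := (Finset.mem_filter.mp hp).2
      have e3' := (Finset.mem_filter.mp hp').2
      have r1 := hc.R2 p 0
      have r1' := hc.R2 p' 0
      simp only [ZMod.val_zero, add_zero, zero_add, ← mul_add] at r1 r1'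
      simp only [r1, r1'] at h
      have l1 := (σ p).isLt
      have l1' := (σ p').isLt
      rcases lt_trichotomy (σ p : ℕ) (σ p' : ℕ) with hl | hl | hl
      · have e5 := Nat.div_le_div_right (c := L2)
          (hc.mono (5 * (M + (σ p : ℕ)) + 4) (5 * (M + (σ p' : ℕ))) (by omega) (by omega)).le
        omega
      · exact σ.injective (Fin.ext hl)
      · have e5 := Nat.div_le_div_right (c := L2)
          (hc.mono (5 * (M + (σ p' : ℕ)) + 4) (5 * (M + (σ p : ℕ))) (by omega) (by omega)).le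
        omega
  have good : ∀ P L, P < 2 * M → P ∉ G → ¬ (R (5 * P) / L < R (5 * P + 4) / L) →
      ∀ c c' : ℕ, c < 5 → c' < 5 →
      R (5 * P + c) / L = R (5 * P + c') / L ∧
      R (5 * P + c) / (4 * Γ) ≤ R (5 * P + c') / (4 * Γ) + 1 := by
    intro P L hP hn hL c c' hc5 hc5'
    simp only [hGd, Finset.mem_filter, Finset.mem_range, not_and, not_exists, not_lt] at hn
    refine piece R (5 * P) L Γ hΓ (fun i hi hi' => hc.mono i (i + 1) (by omega) (by omega))
      (fun i hi hi' => hn hP i hi hi') ?_ c c' hc5 hc5'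
    exact le_antisymm (Nat.div_le_div_right
      (hc.mono (5 * P) (5 * P + 4) (by omega) (by omega)).le) (not_lt.mp hL)
  set Bd := S.filter (fun p => ¬ IsUnit5 E (fun e => rk e / L1) (fun e => rk e / L2)
      (fun e => rk e / (4 * Γ)) (X p)) with hBd
  have key : ∀ p ∈ Bd \ (C1 ∪ C2), ∃ P ∈ G, P = (p : ℕ) ∨ P = M + (σ p : ℕ) := by
    intro p hp
    by_contra hcon
    push Not at hcon
    have n1 : (p : ℕ) ∉ G := fun hmem => (hcon _ hmem).1 rfl
    have n2 : M + (σ p : ℕ) ∉ G := fun hmem => (hcon _ hmem).2 rfl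
    have l1 := p.isLt
    have l2 := (σ p).isLt
    obtain ⟨hp1, hp2⟩ := Finset.mem_sdiff.mp hp
    obtain ⟨hpS, hpU⟩ := Finset.mem_filter.mp hp1
    have m1 : ¬ (R (5 * (p : ℕ)) / L1 < R (5 * (p : ℕ) + 4) / L1) := fun hlt =>
      hp2 (Finset.mem_union_left _ (Finset.mem_filter.mpr ⟨hpS, hlt⟩))
    have m2 : ¬ (R (5 * (M + (σ p : ℕ))) / L2 < R (5 * (M + (σ p : ℕ)) + 4) / L2) :=
      fun hlt => hp2 (Finset.mem_union_right _ (Finset.mem_filter.mpr ⟨hpS, hlt⟩))
    refine hpU ⟨hc.Xinj p, hc.XE p, ?_⟩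
    intro a b d hd
    rcases pairs5 (X p) d hd with ⟨hcl, h⟩ | ⟨hcl, h⟩
    · obtain ⟨c, hcc⟩ := h a
      obtain ⟨c', hcc'⟩ := h b
      simp only [wsel, if_pos hcl, hcc, hcc', hc.R1]
      exact good p L1 (by omega) n1 m1 c.val c'.val (ZMod.val_lt c) (ZMod.val_lt c')
    · obtain ⟨c, hcc⟩ := h a
      obtain ⟨c', hcc'⟩ := h b
      simp only [wsel, if_neg hcl, hcc, hcc', hc.R2]
      have e := good (M + (σ p : ℕ)) L2 (by omega) n2 m2 c.val c'.val (ZMod.val_lt c)
        (ZMod.val_lt c')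
      rw [mul_add] at e
      exact e
  choose! g hg using key
  have h5 : (Bd \ (C1 ∪ C2)).card ≤ G.card := by
    refine Finset.card_le_card_of_injOn g (fun p hp => (hg p hp).1) ?_
    intro p hp p' hp' h
    have a1 := (hg p hp).2
    have a2 := (hg p' hp').2
    rw [← h] at a2
    have l1 := p.isLt
    have l2 := p'.isLt
    rcases a1 with a1 | a1 <;> rcases a2 with a2 | a2
    · exact Fin.ext (by omega)
    · omega
    · omega
    · exact σ.injective (Fin.ext (by omega))
  have h6 : Bd.card ≤ (Bd \ (C1 ∪ C2)).card + (C1 ∪ C2).card := by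
    refine le_trans (Finset.card_le_card ?_) (Finset.card_union_le _ _)
    intro p hp
    by_cases hpc : p ∈ C1 ∪ C2
    · exact Finset.mem_union_right _ hpc
    · exact Finset.mem_union_left _ (Finset.mem_sdiff.mpr ⟨hp, hpc⟩)
  have h7 := Finset.card_union_le C1 C2
  omega

end Pool.Agent.UCS
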