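import Pool.Agent.UCS.Cover
import Pool.Agent.UCS.RedUnion
import Pool.Agent.UCS.BlueUnion
import Pool.Agent.UCS.StructA
import Pool.Agent.UCS.Small
import Pool.Agent.UCR.Rank

/-!
# UCS One: the red pairs for one pair of window sizes
-/

set_option autoImplicit false

namespace Pool.Agent.UCS

open Pool.Agent.UCR

open Classical in
theorem one_type {V : Type} [Fintype V] [DecidableEq V] (E : Finset (Sym2 V))
    (rk : Sym2 V → ℕ) (hinj : Set.InjOn rk (E : Set (Sym2 V))) (m : ℕ) (hm : E.card ≤ m)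
    (hm0 : 0 < m) (k t B h Γ L1 L2 lam Q μ ℓ : ℕ) (K0 : ℝ)
    (σ : Equiv.Perm (Fin (2 ^ k))) (ce : Fin B → Fin t × Fin t)
    (ht : 5 ≤ t) (hΓ : 0 < Γ) (hL1 : 4 * Γ ≤ L1) (hL2 : 4 * Γ ≤ L2)
    (hlam : 108 * (4 * Γ) < lam ^ 3) (hQ : 0 < Q) (hℓ : 0 < ℓ)
    (hred : 4 * (2 * m) ^ t * 4 ^ (t * (t - 1) / 2) * (40 * lam) ^ h ≤ Q ^ h)
    (hb : 4 * (Q : ℝ) * (4 * 2 ^ k / ℓ + μ) ≤ K0)
    (hnum : 4 * (Q : ℝ) * (32 * μ + 16 * 2 ^ k / ℓ) *
      (Real.log (m * (2 ^ k + 1) ^ 2) + Real.log (4 * (k + 1) ^ 2)) ≤ K0) :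
    ∃ red : Sym2 V → Prop,
      (∀ y : Fin t → V, (∀ a b : Fin t, a < b → s(y a, y b) ∈ E) →
        (∀ a b a' b' : Fin t, a < b → a' < b' →
          rk s(y a, y b) / L1 = rk s(y a', y b') / L1 → a = a' ∧ b = b') →
        (∀ a b a' b' : Fin t, a < b → a' < b' →
          rk s(y a, y b) / L2 = rk s(y a', y b') / L2 → a = a' ∧ b = b') →
        (Finset.univ.filter (fun q : Fin t × Fin t => q.1 < q.2 ∧
          red s(y q.1, y q.2))).card < 2 * h) ∧
      ∀ (X : Fin (2 ^ k) → ZMod 5 → V) (Y : Fin (2 ^ k) → Fin t → V)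
        (R : ℕ → ℕ), IsCopy E rk (2 ^ k) t B σ ce X Y R →
        ((Finset.range ((10 + B) * 2 ^ k)).filter
          (fun i => i + 1 < (10 + B) * 2 ^ k ∧ Γ < R (i + 1) - R i)).card ≤ μ →
        ∀ A1 A2 : Fin (2 ^ k) → Fin m, (∀ p, (A1 p : ℕ) = rk s(X p 0, X p 1) / L1) →
          (∀ p, (A2 (σ p) : ℕ) = rk s(X p 0, X p 2) / L2) →
          ∀ u v : ℕ, u ≤ k → v ≤ k → ℓ < 2 ^ (u + 1) → 2 ^ u ≤ μ → ℓ < 2 ^ (v + 1) →
            2 ^ v ≤ μ →
          ∀ (d1 : Fin (2 ^ k / 2 ^ u) → Fin m × Fin (2 ^ k + 1) × Fin (2 ^ k + 1))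
            (d2 : Fin (2 ^ k / 2 ^ v) → Fin m × Fin (2 ^ k + 1) × Fin (2 ^ k + 1)),
          (∀ p i j, Cnt d1 d2 σ p i j → A1 p = i ∧ A2 (σ p) = j) →
          (∀ T, 2 ^ k * wt d1 d2 σ T ≤ 16 * 2 ^ (u + v) + 4 * 2 ^ k) →
          K0 ≤ ((Finset.univ.filter (fun p => ∃ i j, Cnt d1 d2 σ p i j)).card : ℝ) →
          ∃ p, ∃ a a' : ZMod 5, a ≠ a' ∧ red s(X p a, X p a') := by
  set W1 : Sym2 V → ℕ := fun e => rk e / L1 with hW1def
  set W2 : Sym2 V → ℕ := fun e => rk e / L2 with hW2def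
  set F : Sym2 V → ℕ := fun e => rk e / (4 * Γ) with hFdef
  obtain ⟨Rd, hR1, hR2, hR3⟩ := cover E W1 W2 F (4 * Γ) lam
    (fun g => fine_card E rk hinj (4 * Γ) (by omega) g)
    (fun g => coarse_card E rk (4 * Γ) L1 (by omega) hL1 g)
    (fun g => coarse_card E rk (4 * Γ) L2 (by omega) hL2 g) hlam
    (Finset.univ.filter (fun X => IsUnit5 E W1 W2 F X)) (fun X hX => (Finset.mem_filter.mp hX).2)
  have hblue := blue_union k m Q μ ℓ (4 * 2 ^ k / ℓ + μ) K0 σ hm0 hQ hℓ hb hnum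
  have hredu := red_union E W1 W2 m Q (40 * lam) h t m (by omega) hm hQ Rd hR2 hR3 hred
  obtain ⟨B1, hB1, hB1c⟩ := ex_of_filter' _ _ _ _ hblue
  obtain ⟨B2, hB2, hB2c⟩ := ex_of_filter _ _ _ hredu
  have hex : ∃ f : Fin m × Fin m → Fin Q, f ∉ B1 ∧ f ∉ B2 := by
    by_contra hcon
    push Not at hcon
    have hsub : (Finset.univ : Finset (Fin m × Fin m → Fin Q)) ⊆ B1 ∪ B2 := by
      intro f _
      rw [Finset.mem_union]
      by_cases hf : f ∈ B1
      · exact Or.inl hf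
      · exact Or.inr (hcon f hf)
    have hcard := (Finset.card_le_card hsub).trans (Finset.card_union_le _ _)
    rw [Finset.card_univ, Fintype.card_fun, Fintype.card_prod, Fintype.card_fin, Fintype.card_fin,
      ← pow_two] at hcard
    have hpos : 0 < Q ^ (m ^ 2) := pow_pos hQ _
    omega
  obtain ⟨f, hf1, hf2⟩ := hex
  rw [hB2] at hf2
  refine ⟨fun e => ∃ T : Fin m × Fin m, (f T : ℕ) = 0 ∧ e ∈ Rd ((T.1 : ℕ), (T.2 : ℕ)),
    fun y hyE hyW1 hyW2 => ?_, ?_⟩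
  · by_contra hlt
    apply hf2
    refine ⟨y, hyE, hyW1, hyW2, ?_⟩
    convert Nat.le_of_not_lt hlt
  · intro X Y R hc hG A1 A2 hA1 hA2 u v hu hv hu1 hu2 hv1 hv2 d1 d2 hA hwt hK0
    by_contra hcon
    push Not at hcon
    apply hf1
    rw [hB1]
    refine ⟨u, hu, v, hv, hu1, hu2, hv1, hv2, d1, d2, hwt, ?_, ?_⟩
    · refine hK0.trans ?_
      exact_mod_cast card_le_sum_wt σ d1 d2
    · set S : Finset (Fin (2 ^ k)) := Finset.univ.filter (fun p => ∃ i j, Cnt d1 d2 σ p i j)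
        with hS
      have hx1 : (S.image (fun p => rk s(X p 0, X p 1) / L1)).card ≤ 2 ^ k / 2 ^ u := by
        have hsub : S.image (fun p => rk s(X p 0, X p 1) / L1)
            ⊆ (Finset.univ : Finset (Fin (2 ^ k / 2 ^ u))).image (fun s => ((d1 s).1 : ℕ)) := by
          intro x hx
          obtain ⟨p, hp, rfl⟩ := Finset.mem_image.mp hx
          obtain ⟨i, j, hcnt⟩ := (Finset.mem_filter.mp hp).2
          obtain ⟨s, hs, _⟩ := hcnt.1
          refine Finset.mem_image.mpr ⟨s, Finset.mem_univ _, ?_⟩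
          rw [hs, ← (hA p i j hcnt).1]
          exact hA1 p
        refine (Finset.card_le_card hsub).trans (Finset.card_image_le.trans ?_)
        rw [Finset.card_univ, Fintype.card_fin]
      have hx2 : (S.image (fun p => rk s(X p 0, X p 2) / L2)).card ≤ 2 ^ k / 2 ^ v := by
        have hsub : S.image (fun p => rk s(X p 0, X p 2) / L2)
            ⊆ (Finset.univ : Finset (Fin (2 ^ k / 2 ^ v))).image (fun s => ((d2 s).1 : ℕ)) := by
          intro x hx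
          obtain ⟨p, hp, rfl⟩ := Finset.mem_image.mp hx
          obtain ⟨i, j, hcnt⟩ := (Finset.mem_filter.mp hp).2
          obtain ⟨s, hs, _⟩ := hcnt.2
          refine Finset.mem_image.mpr ⟨s, Finset.mem_univ _, ?_⟩
          rw [hs, ← (hA p i j hcnt).2]
          exact hA2 p
        refine (Finset.card_le_card hsub).trans (Finset.card_image_le.trans ?_)
        rw [Finset.card_univ, Fintype.card_fin]
      have hfew := few_bad E rk (2 ^ k) t B σ ce X Y R hc L1 L2 Γ μ _ _ hΓ (by omega) (by omega)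
        S hx1 hx2 hG
      have hsum := sum_wt_le σ d1 d2 A1 A2 hA
        (Finset.univ.filter (fun T => (f T : ℕ) = 0))
        (S.filter (fun p => ¬ IsUnit5 E W1 W2 F (X p))) (by
          intro p T hT hcnt
          rw [Finset.mem_filter] at hT ⊢
          refine ⟨Finset.mem_filter.mpr ⟨Finset.mem_univ _, T.1, T.2, hcnt⟩, fun hunit => ?_⟩
          obtain ⟨a, a', haa, hmem⟩ := hR1 (X p) (Finset.mem_filter.mpr ⟨Finset.mem_univ _, hunit⟩)
          obtain ⟨e1, e2⟩ := hA p _ _ hcnt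
          have hl : lab W1 W2 (X p) = ((T.1 : ℕ), (T.2 : ℕ)) := by
            unfold lab
            rw [← e1, ← e2, hA1, hA2]
          rw [hl] at hmem
          exact hcon p a a' haa T hT.2 hmem)
      have htot : (∑ T ∈ Finset.univ.filter (fun T => (f T : ℕ) = 0), wt d1 d2 σ T)
          ≤ 2 ^ k / 2 ^ u + 2 ^ k / 2 ^ v + μ := hsum.trans hfew
      have hhalf : ∀ w : ℕ, ℓ < 2 ^ (w + 1) →
          (((2 ^ k / 2 ^ w : ℕ) : ℕ) : ℝ) ≤ 2 * 2 ^ k / ℓ := by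
        intro w hw
        have h1 : (((2 ^ k / 2 ^ w : ℕ) : ℕ) : ℝ) ≤ (2 : ℝ) ^ k / 2 ^ w := by
          have := @Nat.cast_div_le ℝ _ _ _ (2 ^ k) (2 ^ w)
          push_cast at this
          exact this
        refine h1.trans ?_
        rw [div_le_div_iff₀ (by positivity) (by exact_mod_cast hℓ)]
        have h2 : (ℓ : ℝ) ≤ 2 ^ (w + 1) := by exact_mod_cast hw.le
        calc (2 : ℝ) ^ k * ℓ ≤ 2 ^ k * 2 ^ (w + 1) := by gcongr
          _ = 2 * 2 ^ k * 2 ^ w := by rw [pow_succ]; ring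
      have htot' : ((∑ T ∈ Finset.univ.filter (fun T => (f T : ℕ) = 0), wt d1 d2 σ T : ℕ) : ℝ)
          ≤ ((2 ^ k / 2 ^ u : ℕ) : ℝ) + ((2 ^ k / 2 ^ v : ℕ) : ℝ) + μ := by exact_mod_cast htot
      have e1 := hhalf u hu1
      have e2 := hhalf v hv1
      have e3 : (4 : ℝ) * 2 ^ k / ℓ = 2 * 2 ^ k / ℓ + 2 * 2 ^ k / ℓ := by ring
      rw [e3]
      push_cast at htot' ⊢
      linarith

end Pool.Agent.UCS
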